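import Pool.Agent.TH362.Neck.K6Data

set_option autoImplicit false
set_option maxRecDepth 100000

namespace Pool.Agent.TH362.Neck.K6

theorem cH : chkH D = true := by decide +kernel

theorem cPv : chkPv D = true := by decide +kernel

theorem cOpt : chkOpt D = true := by decide +kernel

theorem cAdj : chkAdj D = true := by decide +kernel

theorem cT : ∀ B < 6, chkT D B = true := by decide +kernel

theorem cS : ∀ B1 < 6, ∀ B2 < 6, chkS D 102238 B1 B2 = true := by decide +kernel

end Pool.Agent.TH362.Neck.K6
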