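import Pool.Agent.TH362.Neck.K6Data

set_option autoImplicit false
set_option maxRecDepth 100000

namespace Pool.Agent.TH362.Neck.K6

theorem cEns : ∀ B0 < 6, ∀ B1 < 6, chkEns D B0 B1 = true := by decide +kernel

theorem cZero : ∀ B0 < 6, ∀ B1 < 6, chkZero D zc B0 B1 = true := by decide +kernel

theorem cRot : ∀ B0 < 6, ∀ B1 < 6, chkRot D B0 B1 = true := by decide +kernel

end Pool.Agent.TH362.Neck.K6
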