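import Pool.Agent.TH362.Neck.K6Data

set_option autoImplicit false
set_option maxRecDepth 100000

namespace Pool.Agent.TH362.Neck.K6

theorem cM10 : chkB2 D 102238 zc 0 1 0 = true := by decide +kernel

theorem cM11 : chkB2 D 102238 zc 0 1 1 = true := by decide +kernel

theorem cM12 : chkB2 D 102238 zc 0 1 2 = true := by decide +kernel

theorem cM13 : chkB2 D 102238 zc 0 1 3 = true := by decide +kernel

theorem cM14 : chkB2 D 102238 zc 0 1 4 = true := by decide +kernel

theorem cM15 : chkB2 D 102238 zc 0 1 5 = true := by decide +kernel

end Pool.Agent.TH362.Neck.K6
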