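import Pool.Agent.TH362.Neck.K6Data

set_option autoImplicit false
set_option maxRecDepth 100000

namespace Pool.Agent.TH362.Neck.K6

theorem cM20 : chkB2 D 102238 zc 0 2 0 = true := by decide +kernel

theorem cM21 : chkB2 D 102238 zc 0 2 1 = true := by decide +kernel

theorem cM22 : chkB2 D 102238 zc 0 2 2 = true := by decide +kernel

theorem cM23 : chkB2 D 102238 zc 0 2 3 = true := by decide +kernel

theorem cM24 : chkB2 D 102238 zc 0 2 4 = true := by decide +kernel

theorem cM25 : chkB2 D 102238 zc 0 2 5 = true := by decide +kernel

end Pool.Agent.TH362.Neck.K6
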