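import Pool.Agent.TH362.Neck.K6Data

set_option autoImplicit false
set_option maxRecDepth 100000

namespace Pool.Agent.TH362.Neck.K6

theorem cM40 : chkB2 D 102238 zc 0 4 0 = true := by decide +kernel

theorem cM41 : chkB2 D 102238 zc 0 4 1 = true := by decide +kernel

theorem cM42 : chkB2 D 102238 zc 0 4 2 = true := by decide +kernel

theorem cM43 : chkB2 D 102238 zc 0 4 3 = true := by decide +kernel

theorem cM44 : chkB2 D 102238 zc 0 4 4 = true := by decide +kernel

theorem cM45 : chkB2 D 102238 zc 0 4 5 = true := by decide +kernel

end Pool.Agent.TH362.Neck.K6
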