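import Pool.Agent.TH362.Neck.Sound
import Pool.Agent.TH362.Neck.K6A
import Pool.Agent.TH362.Neck.K6B
import Pool.Agent.TH362.Neck.K6M0
import Pool.Agent.TH362.Neck.K6M1
import Pool.Agent.TH362.Neck.K6M2
import Pool.Agent.TH362.Neck.K6M3
import Pool.Agent.TH362.Neck.K6M4
import Pool.Agent.TH362.Neck.K6M5

set_option autoImplicit false
set_option maxRecDepth 100000

namespace Pool.Agent.TH362.Neck.K6

theorem cMain : ∀ B1 < 6, ∀ B2 < 6, chkB2 D 102238 zc 0 B1 B2 = true := by
  intro B hB C hC
  rcases B with _ | _ | _ | _ | _ | _ | B
  · rcases C with _ | _ | _ | _ | _ | _ | C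
    · exact cM00
    · exact cM01
    · exact cM02
    · exact cM03
    · exact cM04
    · exact cM05
    · omega
  · rcases C with _ | _ | _ | _ | _ | _ | C
    · exact cM10
    · exact cM11
    · exact cM12
    · exact cM13
    · exact cM14
    · exact cM15
    · omega
  · rcases C with _ | _ | _ | _ | _ | _ | C
    · exact cM20
    · exact cM21
    · exact cM22
    · exact cM23
    · exact cM24
    · exact cM25
    · omega
  · rcases C with _ | _ | _ | _ | _ | _ | C
    · exact cM30
    · exact cM31
    · exact cM32
    · exact cM33
    · exact cM34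
    · exact cM35
    · omega
  · rcases C with _ | _ | _ | _ | _ | _ | C
    · exact cM40
    · exact cM41
    · exact cM42
    · exact cM43
    · exact cM44
    · exact cM45
    · omega
  · rcases C with _ | _ | _ | _ | _ | _ | C
    · exact cM50
    · exact cM51
    · exact cM52
    · exact cM53
    · exact cM54
    · exact cM55
    · omega
  · omega

theorem ok : Ok D zc where
  H := by decide +kernel
  h := cH
  pv := cPv
  opt := cOpt
  S := cS
  T := cT
  adj := cAdj
  ens := cEns
  zero := cZero
  rot := cRot
  main := cMain

end Pool.Agent.TH362.Neck.K6
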