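import Pool.Agent.TH362.Neck.Core

/-!
A kernel-friendly test of the closure property used in `no_split`.
-/

set_option autoImplicit false

namespace Pool.Agent.TH362.Neck

open Finset

/-- `∀` over a list, by the recursor (fast in the kernel) -/
noncomputable def allr {α : Type} (p : α → Bool) (l : List α) : Bool :=
  @List.rec α (fun _ => Bool) true (fun a _ ih => and (p a) ih) l

lemma allr_iff {α : Type} (p : α → Bool) (l : List α) : allr p l = true ↔ ∀ a ∈ l, p a = true := by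
  induction l with
  | nil => simp [allr]
  | cons a t ih =>
    have : allr p (a :: t) = (p a && allr p t) := rfl
    rw [this, Bool.and_eq_true, ih]
    simp

/-- scalar product of two lists -/
def dot : List ℤ → List ℤ → ℤ
  | a :: l, b :: m => a * b + dot l m
  | _, _ => 0

/-- value of a list of digits in base `1024` -/
def ev : List ℤ → ℤ
  | [] => 0
  | a :: l => a + 1024 * ev l

/-- the `k` digits of `c` in base `1024`, shifted by `512` -/
def dec : ℕ → ℕ → List ℤ
  | 0, _ => []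
  | k + 1, c => (((c % 1024 : ℕ) : ℤ) - 512) :: dec k (c / 1024)

/-- option: letter `A`, offset `o`, residue `f`, `g = N - f`, `s = 2 f`, `t = 2 f mod N`,
code `c` and `c2 = 2 c` -/
structure Op where
  A : ℕ
  o : ℕ
  f : ℕ
  g : ℕ
  s : ℕ
  t : ℕ
  c : ℕ
  c2 : ℕ

/-- search tree for the options, keyed by `t` -/
inductive Tr where
  | nil : Tr
  | node : Tr → ℕ → List Op → Tr → Tr

/-- options with key `k` -/
noncomputable def Tr.find (t : Tr) (k : ℕ) : List Op :=
  @Tr.rec (fun _ => List Op) [] (fun _ v l _ il ir =>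
    @Bool.rec (fun _ => List Op) (@Bool.rec (fun _ => List Op) ir il (Nat.ble k v)) l (Nat.beq k v)) t

/-- table entry: code of the vector `d`, mask of patterns, residue of `d`, code of `M d` -/
structure En where
  c : ℕ
  m : ℕ
  f : ℕ
  g : ℕ

/-- the data -/
structure Dat where
  K : ℕ
  L : ℕ
  N : ℕ
  H : ℤ
  det : ℤ
  h : List (List ℕ)
  adj : List (List ℤ)
  pv : List (List (List ℤ))
  rowf : List ℤ
  opt : List (List Op)
  S : List (List ℕ)
  T : List ℕ
  R : List ℕ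
  U : List Tr
  tbl : List (List (List (List (List En))))

/-- the letters -/
def Dat.hf (D : Dat) (b j : ℕ) : ℕ := (D.h.getD b []).getD j 0

def Dat.pvf (D : Dat) (b o : ℕ) : List ℤ := (D.pv.getD b []).getD o []

def Dat.optf (D : Dat) (b : ℕ) : List Op := D.opt.getD b []

def Dat.Sf (D : Dat) (b c : ℕ) : ℕ := (D.S.getD b []).getD c 0

def Dat.Tf (D : Dat) (b : ℕ) : ℕ := D.T.getD b 0

def Dat.Rf (D : Dat) (b : ℕ) : ℕ := D.R.getD b 0

def Dat.Uf (D : Dat) (b : ℕ) : Tr := D.U.getD b Tr.nil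

def Dat.tb (D : Dat) (b0 b1 b2 b3 : ℕ) : List En :=
  (((D.tbl.getD b0 []).getD b1 []).getD b2 []).getD b3 []

def Dat.Mf (D : Dat) (a b : ℕ) : ℤ := (D.pvf b D.L).getD a 0

/-- the difference vector -/
def zv (K : ℕ) (d v0 v1 v2 v3 : List ℤ) : List ℤ :=
  (List.range K).map (fun i => d.getD i 0 - (v0.getD i 0 - 2 * v1.getD i 0 + 2 * v2.getD i 0
    - v3.getD i 0))

/-- fast disjunction -/
noncomputable def orr (a b : Bool) : Bool := @Bool.rec (fun _ => Bool) b true a

lemma orr_true {a b : Bool} (h : orr a b = true) : a = true ∨ b = true := by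
  cases a
  · right; exact h
  · left; rfl

/-- fast conjunction -/
noncomputable def andr (a b : Bool) : Bool := @Bool.rec (fun _ => Bool) false b a

lemma andr_true {a b : Bool} (h : andr a b = true) : a = true ∧ b = true := by
  cases a
  · cases h
  · exact ⟨rfl, h⟩

/-- bit test -/
noncomputable def bt (m i : ℕ) : Bool := Nat.beq (Nat.land 1 (Nat.shiftRight m i)) 1

/-- code of three bits -/
noncomputable def pcn (c0 c1 c2 : Bool) : ℕ :=
  Nat.add (Nat.add (@Bool.rec (fun _ => ℕ) 0 1 c0) (@Bool.rec (fun _ => ℕ) 0 2 c1))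
    (@Bool.rec (fun _ => ℕ) 0 4 c2)

noncomputable def leafP (mask pm : ℕ) (yne c0 c1 c2 d0 d1 d2 : Bool) : Bool :=
  @Bool.rec (fun _ => Bool) true
    (@Bool.rec (fun _ => Bool) (bt pm (pcn c0 c1 c2)) yne (andr c0 (andr c1 c2)))
    (bt mask (pcn d0 d1 d2))

noncomputable def alt (v q : Bool) (f : Bool → Bool → Bool) : Bool :=
  @Bool.rec (fun _ => Bool) (f false false) (andr (f false false) (f true q)) v

noncomputable def patAll (mask pm : ℕ) (yne : Bool) (x0 x1 x2 x3 : Op) : Bool :=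
  alt (andr (Nat.beq x0.A x1.A) (Nat.ble x0.o x1.o)) (Nat.beq x0.o x1.o) (fun c0 d0 =>
    alt (andr (Nat.beq x1.A x2.A) (Nat.ble x1.o x2.o)) (Nat.beq x1.o x2.o) (fun c1 d1 =>
      alt (andr (Nat.beq x2.A x3.A) (Nat.ble x2.o x3.o)) (Nat.beq x2.o x3.o) (fun c2 d2 =>
        leafP mask pm yne c0 c1 c2 d0 d1 d2)))

/-- search the parent entry with `M d' = z`; `zc` is the code of the zero vector -/
noncomputable def srch (zc mask lhs rhs : ℕ) (x0 x1 x2 x3 : Op) (fb : Bool) (l : List En) : Bool :=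
  @List.rec En (fun _ => Bool) fb (fun e _ ih =>
    @Bool.rec (fun _ => Bool) ih (patAll mask e.m (!(Nat.beq e.c zc)) x0 x1 x2 x3)
      (Nat.beq (Nat.add e.g rhs) lhs)) l

def notdiv (D : Dat) (z : List ℤ) : Bool := D.adj.any (fun r => dot r z % D.det != 0)

noncomputable def fin1 (D : Dat) (zc : ℕ) (e : En) (x0 x1 x2 x3 : Op) : Bool :=
  srch zc e.m (Nat.add (Nat.add e.c x1.c2) x3.c) (Nat.add x0.c x2.c2) x0 x1 x2 x3
    (patAll e.m 0 false x0 x1 x2 x3 ||
      notdiv D (zv D.K (dec D.K e.c) (D.pvf x0.A x0.o) (D.pvf x1.A x1.o)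
        (D.pvf x2.A x2.o) (D.pvf x3.A x3.o)))
    (D.tb x0.A x1.A x2.A x3.A)

noncomputable def fin2 (D : Dat) (zc : ℕ) (e : En) (x0 x1 x3 : Op) (l : List Op) : Bool :=
  allr (fun x2 : Op => fin1 D zc e x0 x1 x2 x3) l

noncomputable def lvl1 (D : Dat) (N zc t : ℕ) (U : Tr) (O1 : List Op) (e : En) (x0 x3 : Op)
    (r : ℕ) : Bool :=
  allr (fun x1 : Op =>
    @Bool.rec (fun _ => Bool) true (fin2 D zc e x0 x1 x3 (U.find (Nat.mod (Nat.add r x1.s) N)))
      (bt t (Nat.mod (Nat.add r x1.s) N))) O1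

noncomputable def lvl3 (D : Dat) (N zc s t : ℕ) (U : Tr) (O1 O3 : List Op) (e : En) (x0 : Op)
    (k : ℕ) : Bool :=
  allr (fun x3 : Op =>
    @Bool.rec (fun _ => Bool) true (lvl1 D N zc t U O1 e x0 x3 (Nat.mod (Nat.add k x3.f) N))
      (bt s (Nat.mod (Nat.add k x3.f) N))) O3

/-- test of one entry -/
noncomputable def chkE (D : Dat) (N zc s t r3 : ℕ) (U : Tr) (O0 O1 O3 : List Op) (e : En) : Bool :=
  allr (fun x0 : Op =>
    orr (Nat.beq (Nat.land (Nat.shiftLeft r3 (Nat.mod (Nat.add e.f x0.g) N)) s) 0)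
      (lvl3 D N zc s t U O1 O3 e x0 (Nat.mod (Nat.add e.f x0.g) N))) O0

/-- test of all entries with given letters -/
noncomputable def chkB (D : Dat) (N zc B0 B1 B2 B3 : ℕ) : Bool :=
  allr (fun e => chkE D N zc (D.Sf B1 B2) (D.Tf B2) (D.Rf B3) (D.Uf B2) (D.optf B0) (D.optf B1)
    (D.optf B3) e) (D.tb B0 B1 B2 B3)

noncomputable def chkB2 (D : Dat) (N zc B0 B1 B2 : ℕ) : Bool :=
  allr (fun B3 => chkB D N zc B0 B1 B2 B3) (List.range D.K)

/-- consistency of the letters and prefix vectors -/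
def chkPv (D : Dat) : Bool :=
  (List.range D.K).all (fun b => (List.range (D.L + 1)).all (fun o =>
    D.pvf b o == (List.range D.K).map (fun a => cnt (D.hf b) a o)))

def chkH (D : Dat) : Bool :=
  (List.range D.K).all (fun b => (List.range D.L).all (fun j => Nat.blt (D.hf b j) D.K &&
    Nat.beq (D.hf ((b + 1) % D.K) j) ((D.hf b j + 1) % D.K))) &&
  Nat.beq (D.hf 0 0) 0 && Nat.ble 2 D.L && Nat.ble 1 D.K && Nat.ble 1 D.N && (D.det != 0) &&
  Nat.ble D.L 100

def chkOpt (D : Dat) : Bool :=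
  (List.range D.K).all (fun b => (List.range D.L).all (fun o =>
    (D.optf (D.hf b o)).any (fun x => Nat.beq x.A b && Nat.beq x.o o && Nat.blt x.f D.N &&
      ((x.f : ℤ) == dot D.rowf (D.pvf b o) % D.N) && ((x.c : ℤ) == ev (D.pvf b o)) &&
      Nat.beq x.g (D.N - x.f) && Nat.beq x.s (2 * x.f) && Nat.beq x.t ((2 * x.f) % D.N) &&
      Nat.beq x.c2 (2 * x.c))))

/-- bits of the residues -/
noncomputable def chkS (D : Dat) (N B1 B2 : ℕ) : Bool :=
  allr (fun x1 : Op => allr (fun x2 : Op =>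
    andr (bt (D.Sf B1 B2) (Nat.mod (Nat.add x2.s (Nat.mul 2 x1.g)) N))
      (bt (D.Sf B1 B2) (Nat.add (Nat.mod (Nat.add x2.s (Nat.mul 2 x1.g)) N) N))) (D.optf B2))
    (D.optf B1)

/-- some option in `l` has the same letter, offset and code -/
noncomputable def memo (y : Op) (l : List Op) : Bool :=
  @List.rec Op (fun _ => Bool) false (fun x _ ih =>
    orr (andr (Nat.beq x.A y.A) (andr (Nat.beq x.o y.o) (Nat.beq x.c2 y.c2))) ih) l

noncomputable def chkT (D : Dat) (B : ℕ) : Bool :=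
  allr (fun x : Op => andr (bt (D.Tf B) x.t) (andr (bt (D.Rf B) x.f)
    (memo x ((D.Uf B).find x.t)))) (D.optf B)

def chkAdj (D : Dat) : Bool :=
  Nat.beq D.adj.length D.K && D.adj.all (fun r => Nat.beq r.length D.K) &&
  (List.range D.K).all (fun i => (List.range D.K).all (fun b =>
    dot (D.adj.getD i []) (D.pvf b D.L) == if i = b then D.det else 0)) &&
  Nat.beq D.rowf.length D.K &&
  (List.range D.K).all (fun b => dot D.rowf (D.pvf b D.L) % D.N == 0)

/-- `M d` -/
def mvec (D : Dat) (d : List ℤ) : List ℤ :=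
  (List.range D.K).map (fun a => dot ((List.range D.K).map (fun b => D.Mf a b)) d)

def chkEn (D : Dat) (e : En) : Bool :=
  Nat.blt e.f D.N && ((e.f : ℤ) == dot D.rowf (dec D.K e.c) % D.N) &&
  (ev (dec D.K e.c) + D.H == (e.c : ℤ)) &&
  (dec D.K e.c).all (fun t => decide (-8 ≤ t) && decide (t ≤ 8)) &&
  (ev (mvec D (dec D.K e.c)) + D.H == (e.g : ℤ)) &&
  (mvec D (dec D.K e.c)).all (fun t => decide (-400 ≤ t) && decide (t ≤ 400))

noncomputable def chkEns (D : Dat) (B0 B1 : ℕ) : Bool :=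
  allr (fun B2 => allr (fun B3 => allr (fun e => chkEn D e) (D.tb B0 B1 B2 B3)) (List.range D.K))
    (List.range D.K)

/-- rotation of a vector -/
def rotl (K : ℕ) (l : List ℤ) : List ℤ := (List.range K).map (fun a => l.getD ((a + (K - 1)) % K) 0)

/-- entry `e'` is entry `e` rotated -/
def isRot (D : Dat) (e e' : En) : Bool :=
  Nat.beq e.m e'.m && (dec D.K e'.c == rotl D.K (dec D.K e.c))

/-- the table is invariant under rotation -/
noncomputable def chkRot (D : Dat) (B0 B1 : ℕ) : Bool :=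
  allr (fun B2 => allr (fun B3 =>
    allr (fun e => (D.tb ((B0 + 1) % D.K) ((B1 + 1) % D.K) ((B2 + 1) % D.K) ((B3 + 1) % D.K)).any
      (fun e' => isRot D e e')) (D.tb B0 B1 B2 B3) &&
    allr (fun e' => (D.tb B0 B1 B2 B3).any (fun e => isRot D e e'))
      (D.tb ((B0 + 1) % D.K) ((B1 + 1) % D.K) ((B2 + 1) % D.K) ((B3 + 1) % D.K)))
    (List.range D.K)) (List.range D.K)

def zpat (m : ℕ) (B0 B1 B2 B3 : ℕ) (c0 c1 c2 : Bool) : Bool :=
  (c0 && !(Nat.beq B0 B1)) || (c1 && !(Nat.beq B1 B2)) || (c2 && !(Nat.beq B2 B3)) ||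
  (c0 && c1 && c2) || Nat.testBit m (pc c0 c1 c2)

def zpats (m : ℕ) (B0 B1 B2 B3 : ℕ) : Bool :=
  zpat m B0 B1 B2 B3 false false false && zpat m B0 B1 B2 B3 false false true &&
  zpat m B0 B1 B2 B3 false true false && zpat m B0 B1 B2 B3 false true true &&
  zpat m B0 B1 B2 B3 true false false && zpat m B0 B1 B2 B3 true false true &&
  zpat m B0 B1 B2 B3 true true false && zpat m B0 B1 B2 B3 true true true

noncomputable def chkZero (D : Dat) (zc B0 B1 : ℕ) : Bool :=
  allr (fun B2 => allr (fun B3 => (D.tb B0 B1 B2 B3).any (fun e => Nat.beq e.c zc &&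
    zpats e.m B0 B1 B2 B3)) (List.range D.K)) (List.range D.K)

end Pool.Agent.TH362.Neck
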