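import Mathlib

/-!
Fixed points of uniform morphisms without a fair splitting by two cuts: the induction.
-/

set_option autoImplicit false

namespace Pool.Agent.TH362.Neck

open Finset

/-- number of occurrences of `a` among the first `p` letters of `w` -/
def cnt (w : ℕ → ℕ) (a : ℕ) : ℕ → ℤ
  | 0 => 0
  | p + 1 => cnt w a p + (if w p = a then 1 else 0)

/-- fixed point of the `L`-uniform morphism `b ↦ h b 0, …, h b (L-1)` -/
def fw (h : ℕ → ℕ → ℕ) (L : ℕ) (n : ℕ) : ℕ :=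
  if hn : n = 0 ∨ L < 2 then 0 else h (fw h L (n / L)) (n % L)
termination_by n
decreasing_by
  push Not at hn
  exact Nat.div_lt_self (by omega) (by omega)

lemma fw_zero (h : ℕ → ℕ → ℕ) (L : ℕ) : fw h L 0 = 0 := by
  rw [fw]; simp

lemma fw_block {h : ℕ → ℕ → ℕ} {L : ℕ} (hL : 2 ≤ L) (h0 : h 0 0 = 0) (q j : ℕ) (hj : j < L) :
    fw h L (L * q + j) = h (fw h L q) j := by
  by_cases hz : L * q + j = 0
  · have hq : q = 0 := by
      rcases Nat.eq_zero_or_pos q with h' | h'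
      · exact h'
      · have : 0 < L * q := Nat.mul_pos (by omega) h'
        omega
    have hj' : j = 0 := by omega
    subst hq; subst hj'
    rw [Nat.mul_zero, Nat.add_zero, fw_zero, h0]
  · rw [fw]
    rw [dif_neg (by omega)]
    have e1 : (L * q + j) / L = q := by
      rw [Nat.add_comm, Nat.add_mul_div_left _ _ (by omega : 0 < L), Nat.div_eq_of_lt hj]
      omega
    have e2 : (L * q + j) % L = j := by
      rw [Nat.mul_add_mod, Nat.mod_eq_of_lt hj]
    rw [e1, e2]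

lemma fw_lt {h : ℕ → ℕ → ℕ} {K L : ℕ} (hL : 2 ≤ L) (hK : 0 < K)
    (hlt : ∀ b < K, ∀ j < L, h b j < K) (n : ℕ) : fw h L n < K := by
  induction n using Nat.strong_induction_on with
  | _ n ih =>
    rw [fw]
    split
    · exact hK
    · rename_i hn
      push Not at hn
      exact hlt _ (ih _ (Nat.div_lt_self (by omega) (by omega))) _ (Nat.mod_lt _ (by omega))

lemma cnt_add {w : ℕ → ℕ} {g : ℕ → ℕ} {s L : ℕ} (a : ℕ) (hw : ∀ j < L, w (s + j) = g j) :
    ∀ o ≤ L, cnt w a (s + o) = cnt w a s + cnt g a o := by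
  intro o
  induction o with
  | zero => intro _; simp [cnt]
  | succ o ih =>
    intro ho
    rw [← Nat.add_assoc, cnt, ih (by omega), hw o (by omega), cnt]
    ring

lemma cnt_mul {w : ℕ → ℕ} {h : ℕ → ℕ → ℕ} {K L : ℕ} (hw : ∀ q, ∀ j < L, w (L * q + j) = h (w q) j)
    (hlt : ∀ n, w n < K) (a q : ℕ) :
    cnt w a (L * q) = ∑ b ∈ range K, cnt (h b) a L * cnt w b q := by
  induction q with
  | zero => simp [cnt]
  | succ q ih =>
    rw [Nat.mul_succ, cnt_add a (hw q) L le_rfl, ih]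
    have : ∀ b ∈ range K, cnt (h b) a L * cnt w b (q + 1) =
        cnt (h b) a L * cnt w b q + (if b = w q then cnt (h b) a L else 0) := by
      intro b _
      rw [cnt]
      by_cases hb : w q = b
      · rw [if_pos hb, if_pos hb.symm]; ring
      · rw [if_neg hb, if_neg (fun h' => hb h'.symm)]; ring
    rw [Finset.sum_congr rfl this, Finset.sum_add_distrib, Finset.sum_ite_eq' (range K) (w q)]
    rw [if_pos (mem_range.mpr (hlt q))]

/-- the vector whose vanishing means that `[p1,p2)` balances `[p0,p1) ∪ [p2,p3)` -/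
def dd (w : ℕ → ℕ) (a p0 p1 p2 p3 : ℕ) : ℤ :=
  cnt w a p0 - 2 * cnt w a p1 + 2 * cnt w a p2 - cnt w a p3

lemma dd_block {w : ℕ → ℕ} {h : ℕ → ℕ → ℕ} {K L : ℕ} (hw : ∀ q, ∀ j < L, w (L * q + j) = h (w q) j)
    (hlt : ∀ n, w n < K) (a q0 q1 q2 q3 o0 o1 o2 o3 : ℕ)
    (ho0 : o0 < L) (ho1 : o1 < L) (ho2 : o2 < L) (ho3 : o3 < L) :
    dd w a (L * q0 + o0) (L * q1 + o1) (L * q2 + o2) (L * q3 + o3) =
      ∑ b ∈ range K, cnt (h b) a L * dd w b q0 q1 q2 q3 +
        (cnt (h (w q0)) a o0 - 2 * cnt (h (w q1)) a o1 + 2 * cnt (h (w q2)) a o2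
          - cnt (h (w q3)) a o3) := by
  unfold dd
  rw [cnt_add a (hw q0) o0 ho0.le, cnt_add a (hw q1) o1 ho1.le, cnt_add a (hw q2) o2 ho2.le,
    cnt_add a (hw q3) o3 ho3.le, cnt_mul hw hlt, cnt_mul hw hlt, cnt_mul hw hlt, cnt_mul hw hlt]
  have : ∑ b ∈ range K, cnt (h b) a L *
      (cnt w b q0 - 2 * cnt w b q1 + 2 * cnt w b q2 - cnt w b q3) =
      ∑ b ∈ range K, cnt (h b) a L * cnt w b q0 - 2 * ∑ b ∈ range K, cnt (h b) a L * cnt w b q1
        + 2 * ∑ b ∈ range K, cnt (h b) a L * cnt w b q2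
        - ∑ b ∈ range K, cnt (h b) a L * cnt w b q3 := by
    rw [Finset.mul_sum, Finset.mul_sum, ← Finset.sum_sub_distrib, ← Finset.sum_add_distrib,
      ← Finset.sum_sub_distrib]
    apply Finset.sum_congr rfl
    intro b _
    ring
  rw [this]
  ring

/-- code of the coincidences -/
def pc (c0 c1 c2 : Bool) : ℕ := (if c0 then 1 else 0) + (if c1 then 2 else 0) + (if c2 then 4 else 0)

theorem no_split {h : ℕ → ℕ → ℕ} {K L : ℕ} (hL : 2 ≤ L) (hK : 0 < K) (h0 : h 0 0 = 0)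
    (hlt : ∀ b < K, ∀ j < L, h b j < K) (Bad : (ℕ → ℤ) → ℕ → ℕ → ℕ → ℕ → ℕ → Prop)
    (hstep : ∀ (x y : ℕ → ℤ) (A0 A1 A2 A3 o0 o1 o2 o3 : ℕ) (c0 c1 c2 : Bool),
      A0 < K → A1 < K → A2 < K → A3 < K → o0 < L → o1 < L → o2 < L → o3 < L →
      (c0 = true → A0 = A1 ∧ o0 ≤ o1) → (c1 = true → A1 = A2 ∧ o1 ≤ o2) →
      (c2 = true → A2 = A3 ∧ o2 ≤ o3) →
      (∀ a < K, x a = ∑ b ∈ range K, cnt (h b) a L * y b +
        (cnt (h A0) a o0 - 2 * cnt (h A1) a o1 + 2 * cnt (h A2) a o2 - cnt (h A3) a o3)) →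
      Bad x (h A0 o0) (h A1 o1) (h A2 o2) (h A3 o3)
        (pc (c0 && o0 == o1) (c1 && o1 == o2) (c2 && o2 == o3)) →
      (c0 = true ∧ c1 = true ∧ c2 = true ∧ ∃ b < K, y b ≠ 0) ∨
        (¬ (c0 = true ∧ c1 = true ∧ c2 = true) ∧ Bad y A0 A1 A2 A3 (pc c0 c1 c2)))
    (hzero : ∀ (x : ℕ → ℤ) (B0 B1 B2 B3 : ℕ) (c0 c1 c2 : Bool), B0 < K → B1 < K → B2 < K → B3 < K →
      (c0 = true → B0 = B1) → (c1 = true → B1 = B2) → (c2 = true → B2 = B3) →
      ¬ (c0 = true ∧ c1 = true ∧ c2 = true) → (∀ a < K, x a = 0) →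
      Bad x B0 B1 B2 B3 (pc c0 c1 c2))
    (p0 p1 p2 p3 : ℕ) (h01 : p0 ≤ p1) (h12 : p1 ≤ p2) (h23 : p2 ≤ p3) (h03 : p0 < p3) :
    ∃ a < K, dd (fw h L) a p0 p1 p2 p3 ≠ 0 := by
  have hw : ∀ q, ∀ j < L, fw h L (L * q + j) = h (fw h L q) j := fun q j hj => fw_block hL h0 q j hj
  have hlt' : ∀ n, fw h L n < K := fw_lt hL hK hlt
  have key : ∀ n p0 p1 p2 p3 : ℕ, p3 = n → p0 ≤ p1 → p1 ≤ p2 → p2 ≤ p3 → p0 < p3 →
      ¬ Bad (fun a => dd (fw h L) a p0 p1 p2 p3) (fw h L p0) (fw h L p1) (fw h L p2) (fw h L p3)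
        (pc (p0 == p1) (p1 == p2) (p2 == p3)) := by
    intro n
    induction n using Nat.strong_induction_on with
    | _ n ih =>
      intro p0 p1 p2 p3 hn h01 h12 h23 h03 hbad
      have hLp : 0 < L := by omega
      have e : ∀ p, L * (p / L) + p % L = p := fun p => Nat.div_add_mod p L
      have hm : ∀ p, p % L < L := fun p => Nat.mod_lt p hLp
      have d01 : p0 / L ≤ p1 / L := Nat.div_le_div_right h01
      have d12 : p1 / L ≤ p2 / L := Nat.div_le_div_right h12
      have d23 : p2 / L ≤ p3 / L := Nat.div_le_div_right h23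
      have hord : ∀ p p' : ℕ, p ≤ p' → p / L = p' / L → p % L ≤ p' % L := by
        intro p p' hp hq
        have h1 := e p
        have h2 := e p'
        rw [hq] at h1
        omega
      have heq : ∀ p p' : ℕ, (p == p') = ((p / L == p' / L) && (p % L == p' % L)) := by
        intro p p'
        by_cases hpp : p = p'
        · subst hpp; simp
        · have : ¬ (p / L = p' / L ∧ p % L = p' % L) := by
            rintro ⟨h1, h2⟩
            apply hpp
            rw [← e p, ← e p', h1, h2]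
          rw [beq_eq_false_iff_ne.mpr hpp]
          symm
          rw [Bool.and_eq_false_iff]
          by_cases h1 : p / L = p' / L
          · right
            rw [beq_eq_false_iff_ne]
            exact fun h2 => this ⟨h1, h2⟩
          · left
            rwa [beq_eq_false_iff_ne]
      have hx : ∀ a < K, (fun a => dd (fw h L) a p0 p1 p2 p3) a =
          ∑ b ∈ range K, cnt (h b) a L *
            (fun b => dd (fw h L) b (p0 / L) (p1 / L) (p2 / L) (p3 / L)) b +
          (cnt (h (fw h L (p0 / L))) a (p0 % L) - 2 * cnt (h (fw h L (p1 / L))) a (p1 % L)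
            + 2 * cnt (h (fw h L (p2 / L))) a (p2 % L) - cnt (h (fw h L (p3 / L))) a (p3 % L)) := by
        intro a _
        have := dd_block hw hlt' a (p0 / L) (p1 / L) (p2 / L) (p3 / L) (p0 % L) (p1 % L) (p2 % L)
          (p3 % L) (hm _) (hm _) (hm _) (hm _)
        rw [e, e, e, e] at this
        exact this
      have hl : ∀ p, fw h L p = h (fw h L (p / L)) (p % L) := by
        intro p
        have := hw (p / L) (p % L) (hm p)
        rwa [e] at this
      have hb' : Bad (fun a => dd (fw h L) a p0 p1 p2 p3) (h (fw h L (p0 / L)) (p0 % L))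
          (h (fw h L (p1 / L)) (p1 % L)) (h (fw h L (p2 / L)) (p2 % L))
          (h (fw h L (p3 / L)) (p3 % L))
          (pc ((p0 / L == p1 / L) && (p0 % L == p1 % L)) ((p1 / L == p2 / L) && (p1 % L == p2 % L))
            ((p2 / L == p3 / L) && (p2 % L == p3 % L))) := by
        rw [← hl, ← hl, ← hl, ← hl, ← heq, ← heq, ← heq]
        exact hbad
      have hs := hstep (fun a => dd (fw h L) a p0 p1 p2 p3)
        (fun b => dd (fw h L) b (p0 / L) (p1 / L) (p2 / L) (p3 / L))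
        (fw h L (p0 / L)) (fw h L (p1 / L)) (fw h L (p2 / L)) (fw h L (p3 / L))
        (p0 % L) (p1 % L) (p2 % L) (p3 % L) (p0 / L == p1 / L) (p1 / L == p2 / L) (p2 / L == p3 / L)
        (hlt' _) (hlt' _) (hlt' _) (hlt' _) (hm _) (hm _) (hm _) (hm _)
        (fun hc => by
          rw [beq_iff_eq] at hc
          exact ⟨by rw [hc], hord _ _ h01 hc⟩)
        (fun hc => by
          rw [beq_iff_eq] at hc
          exact ⟨by rw [hc], hord _ _ h12 hc⟩)
        (fun hc => by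
          rw [beq_iff_eq] at hc
          exact ⟨by rw [hc], hord _ _ h23 hc⟩)
        hx hb'
      rcases hs with ⟨c0, c1, c2, b, _, hb⟩ | ⟨hc, hbad'⟩
      · rw [beq_iff_eq] at c0 c1 c2
        apply hb
        show dd (fw h L) b (p0 / L) (p1 / L) (p2 / L) (p3 / L) = 0
        rw [c0, c1, c2]
        unfold dd
        ring
      · have hlt3 : p3 / L < n := by
          rw [← hn]
          exact Nat.div_lt_self (by omega) (by omega)
        refine ih (p3 / L) hlt3 (p0 / L) (p1 / L) (p2 / L) (p3 / L) rfl d01 d12 d23 ?_ hbad'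
        by_contra hnot
        apply hc
        rw [beq_iff_eq, beq_iff_eq, beq_iff_eq]
        omega
  by_contra hno
  push Not at hno
  refine key p3 p0 p1 p2 p3 rfl h01 h12 h23 h03 ?_
  apply hzero
  · exact hlt' _
  · exact hlt' _
  · exact hlt' _
  · exact hlt' _
  · intro hc; rw [beq_iff_eq] at hc; rw [hc]
  · intro hc; rw [beq_iff_eq] at hc; rw [hc]
  · intro hc; rw [beq_iff_eq] at hc; rw [hc]
  · rw [beq_iff_eq, beq_iff_eq, beq_iff_eq]
    omega
  · exact hno

end Pool.Agent.TH362.Neck
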