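import Pool.Agent.TH362.Neck.Core
import Pool.Agent.H257R3.NeckDefs

/-!
From words over `ℕ` to colourings of `ℤ`.
-/

set_option autoImplicit false

namespace Pool.Agent.TH362.Neck

open Finset
open Pool.Agent.H257R3.Neck

/-- the `j`-th point of the cube -/
def ptz (a : Fin 1 → ℤ) (j : ℕ) : Fin 1 → ℤ := fun _ => a 0 + 1 + j

lemma mem_box1 (a : Fin 1 → ℤ) (n : ℕ) (x : Fin 1 → ℤ) :
    x ∈ box 1 a n ↔ a 0 + 1 ≤ x 0 ∧ x 0 ≤ a 0 + n := by
  unfold Pool.Agent.H257R3.Neck.box
  rw [Fintype.mem_piFinset]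
  constructor
  · intro h
    have := h 0
    rwa [Finset.mem_Icc] at this
  · intro h i
    have hi : i = 0 := Subsingleton.elim _ _
    rw [hi, Finset.mem_Icc]
    exact h

lemma ptz_mem (a : Fin 1 → ℤ) (n j : ℕ) (hj : j < n) : ptz a j ∈ box 1 a n := by
  rw [mem_box1]
  unfold ptz
  constructor <;> omega

lemma box_card (a : Fin 1 → ℤ) (n : ℕ) (P : (Fin 1 → ℤ) → Prop) [DecidablePred P] :
    ((box 1 a n).filter P).card = ((range n).filter (fun j => P (ptz a j))).card := by
  symm
  apply Finset.card_bij (fun j _ => ptz a j)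
  · intro j hj
    rw [Finset.mem_filter, Finset.mem_range] at hj
    rw [Finset.mem_filter]
    exact ⟨ptz_mem a n j hj.1, hj.2⟩
  · intro i _ j _ hij
    have := congrFun hij 0
    unfold ptz at this
    omega
  · intro x hx
    rw [Finset.mem_filter, mem_box1] at hx
    obtain ⟨⟨h1, h2⟩, h3⟩ := hx
    have hxe : ptz a (x 0 - a 0 - 1).toNat = x := by
      funext i
      have hi : i = 0 := Subsingleton.elim _ _
      rw [hi]
      unfold ptz
      omega
    refine ⟨(x 0 - a 0 - 1).toNat, ?_, hxe⟩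
    rw [Finset.mem_filter, Finset.mem_range, hxe]
    exact ⟨by omega, h3⟩

lemma cnt_diff (w : ℕ → ℕ) (b s r : ℕ) :
    cnt w b (s + r) - cnt w b s = ∑ t ∈ range r, (if w (s + t) = b then (1 : ℤ) else 0) := by
  induction r with
  | zero => simp
  | succ r ih =>
    rw [Finset.sum_range_succ, ← ih, ← Nat.add_assoc, cnt]
    ring

/-- a signed count -/
lemma signed_part (w : ℕ → ℕ) (b s r r' : ℕ) (hr : r ≤ r') (sg : ℕ → ℤ) (e : ℤ)
    (he : ∀ t, r ≤ t → t < r' → sg t = e) :
    ∑ t ∈ Finset.Ico r r', (if w (s + t) = b then sg t else 0) =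
      e * (cnt w b (s + r') - cnt w b (s + r)) := by
  have h1 : cnt w b (s + r') - cnt w b (s + r) =
      ∑ t ∈ Finset.Ico r r', (if w (s + t) = b then (1 : ℤ) else 0) := by
    have h2 := cnt_diff w b s r'
    have h3 := cnt_diff w b s r
    rw [Finset.sum_Ico_eq_sub _ hr, ← h2, ← h3]
    ring
  rw [h1, Finset.mul_sum]
  apply Finset.sum_congr rfl
  intro t ht
  rw [Finset.mem_Ico] at ht
  rw [he t ht.1 ht.2]
  split <;> simp

lemma two_cuts (C : Finset (Fin 1 × ℤ)) (hC : C.card ≤ 2) :
    ∃ m1 m2 : ℤ, m1 ≤ m2 ∧ ∀ p ∈ C, p.2 = m1 ∨ p.2 = m2 := by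
  have h1 : (C.image Prod.snd).card ≤ 2 := le_trans Finset.card_image_le hC
  rcases Nat.lt_or_ge (C.image Prod.snd).card 2 with h2 | h2
  · have h3 : (C.image Prod.snd).card ≤ 1 := by omega
    rw [Finset.card_le_one_iff_subset_singleton] at h3
    obtain ⟨m, hm⟩ := h3
    refine ⟨m, m, le_rfl, fun p hp => Or.inl ?_⟩
    have := hm (Finset.mem_image_of_mem Prod.snd hp)
    rwa [Finset.mem_singleton] at this
  · have h3 : (C.image Prod.snd).card = 2 := by omega
    rw [Finset.card_eq_two] at h3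
    obtain ⟨x, y, _, hxy⟩ := h3
    have hmem : ∀ p ∈ C, p.2 = x ∨ p.2 = y := by
      intro p hp
      have := Finset.mem_image_of_mem Prod.snd hp
      rw [hxy] at this
      simpa using this
    rcases le_total x y with hle | hle
    · exact ⟨x, y, hle, hmem⟩
    · exact ⟨y, x, hle, fun p hp => (hmem p hp).symm⟩

/-- a fair splitting of a factor of `w` yields a vanishing vector -/
lemma not_split {K : ℕ} (w : ℕ → ℕ) (hw : ∀ n, w n < K)
    (hno : ∀ p0 p1 p2 p3 : ℕ, p0 ≤ p1 → p1 ≤ p2 → p2 ≤ p3 → p0 < p3 →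
      ∃ a < K, dd w a p0 p1 p2 p3 ≠ 0)
    (c : (Fin 1 → ℤ) → Fin K) (a : Fin 1 → ℤ) (n s : ℕ) (hn : 1 ≤ n)
    (hc : ∀ j < n, ((c (ptz a j) : Fin K) : ℕ) = w (s + j)) : ¬ FairlySplit 2 c a n := by
  rintro ⟨C, hC, σ, hσ, hcnt⟩
  obtain ⟨m1, m2, hm, hCm⟩ := two_cuts C hC
  set r1 : ℕ := min n (m1 - a 0).toNat with hr1
  set r2 : ℕ := min n (m2 - a 0).toNat with hr2
  have hr12 : r1 ≤ r2 := by
    rw [hr1, hr2]
    have : (m1 - a 0).toNat ≤ (m2 - a 0).toNat := by omega
    omega
  have hr1n : r1 ≤ n := by rw [hr1]; omega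
  have hr2n : r2 ≤ n := by rw [hr2]; omega
  have hside1 : ∀ j < n, (ptz a j 0 ≤ m1 ↔ j < r1) := by
    intro j hj
    unfold ptz
    rw [hr1]
    constructor <;> intro h <;> omega
  have hside2 : ∀ j < n, (ptz a j 0 ≤ m2 ↔ j < r2) := by
    intro j hj
    unfold ptz
    rw [hr2]
    constructor <;> intro h <;> omega
  have hsame : ∀ i < n, ∀ j < n, (i < r1 ↔ j < r1) → (i < r2 ↔ j < r2) →
      σ (ptz a i) = σ (ptz a j) := by
    intro i hi j hj h1 h2
    apply hσ _ (ptz_mem a n i hi) _ (ptz_mem a n j hj)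
    intro p hp
    have hp0 : p.1 = 0 := Subsingleton.elim _ _
    rw [hp0]
    rcases hCm p hp with h | h
    · rw [h, hside1 i hi, hside1 j hj]; exact h1
    · rw [h, hside2 i hi, hside2 j hj]; exact h2
  set sg : ℕ → ℤ := fun t => if σ (ptz a t) = true then 1 else -1 with hsg
  have hsgv : ∀ t, sg t = 1 ∨ sg t = -1 := by
    intro t
    rw [hsg]
    simp only
    split
    · exact Or.inl rfl
    · exact Or.inr rfl
  have hsum : ∀ b < K, ∑ t ∈ Finset.Ico 0 n, (if w (s + t) = b then sg t else 0) = 0 := by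
    intro b hb
    have h := hcnt ⟨b, hb⟩
    rw [box_card, box_card, Finset.card_filter, Finset.card_filter] at h
    have h' : (∑ t ∈ range n, (if c (ptz a t) = ⟨b, hb⟩ ∧ σ (ptz a t) = true then (1 : ℤ) else 0)) =
        ∑ t ∈ range n, (if c (ptz a t) = ⟨b, hb⟩ ∧ σ (ptz a t) = false then (1 : ℤ) else 0) := by
      exact_mod_cast h
    rw [← sub_eq_zero, ← Finset.sum_sub_distrib] at h'
    refine Eq.trans ?_ h'
    rw [Finset.range_eq_Ico]
    apply Finset.sum_congr rfl
    intro t ht
    rw [Finset.mem_Ico] at ht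
    have hct := hc t ht.2
    have hiff : c (ptz a t) = ⟨b, hb⟩ ↔ w (s + t) = b := by
      rw [← hct, Fin.ext_iff]
    by_cases hwb : w (s + t) = b
    · rw [if_pos hwb]
      have hcb := hiff.mpr hwb
      rw [hsg]
      simp only
      cases hst : σ (ptz a t)
      · simp [hcb]
      · simp [hcb]
    · rw [if_neg hwb]
      have hcb : ¬ c (ptz a t) = ⟨b, hb⟩ := fun h' => hwb (hiff.mp h')
      simp [hcb]
  have key : ∀ b < K, sg 0 * (cnt w b (s + r1) - cnt w b (s + 0)) +
      sg r1 * (cnt w b (s + r2) - cnt w b (s + r1)) +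
      sg r2 * (cnt w b (s + n) - cnt w b (s + r2)) = 0 := by
    intro b hb
    rw [← hsum b hb]
    rw [← signed_part w b s 0 r1 (Nat.zero_le _) sg (sg 0),
      ← signed_part w b s r1 r2 hr12 sg (sg r1), ← signed_part w b s r2 n hr2n sg (sg r2),
      Finset.sum_Ico_consecutive _ (Nat.zero_le _) hr12,
      Finset.sum_Ico_consecutive _ (Nat.zero_le _) hr2n]
    · intro t h1 h2
      rw [hsg]
      simp only
      rw [hsame t (by omega) r2 (by omega) (by omega) (by omega)]
    · intro t h1 h2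
      rw [hsg]
      simp only
      rw [hsame t (by omega) r1 (by omega) (by omega) (by omega)]
    · intro t h1 h2
      rw [hsg]
      simp only
      rw [hsame t (by omega) 0 (by omega) (by omega) (by omega)]
  have contra : ∀ p1 p2 : ℕ, s ≤ p1 → p1 ≤ p2 → p2 ≤ s + n →
      (∀ b < K, dd w b s p1 p2 (s + n) = 0) → False := by
    intro p1 p2 h1 h2 h3 h4
    obtain ⟨b, hb, hb'⟩ := hno s p1 p2 (s + n) h1 h2 h3 (by omega)
    exact hb' (h4 b hb)
  rcases hsgv 0 with e1 | e1 <;> rcases hsgv r1 with e2 | e2 <;> rcases hsgv r2 with e3 | e3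
  · refine contra s (s + n) le_rfl (by omega) le_rfl (fun b hb => ?_)
    have := key b hb
    rw [e1, e2, e3] at this
    unfold dd
    rw [Nat.add_zero] at this
    linear_combination this
  · refine contra s (s + r2) le_rfl (by omega) (by omega) (fun b hb => ?_)
    have := key b hb
    rw [e1, e2, e3] at this
    unfold dd
    rw [Nat.add_zero] at this
    linear_combination this
  · refine contra (s + r1) (s + r2) (by omega) (by omega) (by omega) (fun b hb => ?_)
    have := key b hb
    rw [e1, e2, e3] at this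
    unfold dd
    rw [Nat.add_zero] at this
    linear_combination -this
  · refine contra s (s + r1) le_rfl (by omega) (by omega) (fun b hb => ?_)
    have := key b hb
    rw [e1, e2, e3] at this
    unfold dd
    rw [Nat.add_zero] at this
    linear_combination this
  · refine contra s (s + r1) le_rfl (by omega) (by omega) (fun b hb => ?_)
    have := key b hb
    rw [e1, e2, e3] at this
    unfold dd
    rw [Nat.add_zero] at this
    linear_combination -this
  · refine contra (s + r1) (s + r2) (by omega) (by omega) (by omega) (fun b hb => ?_)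
    have := key b hb
    rw [e1, e2, e3] at this
    unfold dd
    rw [Nat.add_zero] at this
    linear_combination this
  · refine contra s (s + r2) le_rfl (by omega) (by omega) (fun b hb => ?_)
    have := key b hb
    rw [e1, e2, e3] at this
    unfold dd
    rw [Nat.add_zero] at this
    linear_combination -this
  · refine contra s (s + n) le_rfl (by omega) le_rfl (fun b hb => ?_)
    have := key b hb
    rw [e1, e2, e3] at this
    unfold dd
    rw [Nat.add_zero] at this
    linear_combination -this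

/-- a word without fair splittings gives a colouring of `ℤ` -/
theorem avoidable_of_word {K : ℕ} (w : ℕ → ℕ) (hw : ∀ n, w n < K)
    (hno : ∀ p0 p1 p2 p3 : ℕ, p0 ≤ p1 → p1 ≤ p2 → p2 ≤ p3 → p0 < p3 →
      ∃ a < K, dd w a p0 p1 p2 p3 ≠ 0) : Avoidable 2 1 K := by
  classical
  set cN : ℕ → (Fin 1 → ℤ) → Fin K := fun N x => ⟨w (x 0 + N).toNat, hw _⟩ with hcN
  have hlim : ∀ x, ∃ v : Fin K, ∀ᶠ N in (Filter.hyperfilter ℕ : Filter ℕ), cN N x = v := by
    intro x
    by_contra h
    rw [not_exists] at h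
    have h1 : ∀ v : Fin K, ∀ᶠ N in (Filter.hyperfilter ℕ : Filter ℕ), ¬ cN N x = v := by
      intro v
      exact Ultrafilter.eventually_not.mpr (h v)
    have h2 := (Filter.eventually_all).mpr h1
    obtain ⟨N, hN⟩ := h2.exists
    exact hN (cN N x) rfl
  choose c hc using hlim
  refine ⟨c, fun a n hn hsplit => ?_⟩
  have hfin : ∀ᶠ N in (Filter.hyperfilter ℕ : Filter ℕ), ∀ x ∈ box 1 a n, cN N x = c x := by
    rw [Filter.eventually_all_finset]
    intro x _
    exact hc x
  have hbig : ∀ᶠ N in (Filter.hyperfilter ℕ : Filter ℕ), (a 0).natAbs + 1 ≤ N := by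
    apply Filter.hyperfilter_le_cofinite
    rw [Nat.cofinite_eq_atTop]
    exact Filter.eventually_ge_atTop _
  obtain ⟨N, hN1, hN2⟩ := (hfin.and hbig).exists
  refine not_split w hw hno c a n (a 0 + 1 + N).toNat hn ?_ hsplit
  intro j hj
  rw [← hN1 _ (ptz_mem a n j hj), hcN]
  simp only
  congr 1
  unfold ptz
  omega

end Pool.Agent.TH362.Neck
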