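import Pool.Agent.TH362.Neck.Sound
import Pool.Agent.TH362.Neck.ToZ

/-!
With four colours every colouring of `ℤ` has a block with a fair splitting by two cuts.
-/

set_option autoImplicit false

namespace Pool.Agent.TH362.Neck

open Finset
open Pool.Agent.H257R3.Neck

/-- some `i < k` with `x + 2 g_i = y + 2 f_i` -/
def inner (x y : ℕ) : ℕ → List ℕ → List ℕ → Bool
  | 0, _, _ => false
  | k + 1, g, f => Nat.beq (x + 2 * g.headD 0) (y + 2 * f.headD 0) || inner x y k g.tail f.tail

/-- `g = F.drop n`, `h = F.drop (2 n)` -/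
def outer (F : List ℕ) (x : ℕ) : ℕ → ℕ → List ℕ → List ℕ → Bool
  | 0, _, _, _ => false
  | k + 1, n, g, h =>
    (Nat.ble 1 h.length && (Nat.beq (Nat.land (x + h.headD 0) 1074791425) 0 &&
      inner x (h.headD 0) (n + 1) g F)) || outer F x k (n + 1) g.tail h.tail.tail

/-- some block at the end of the word has a fair splitting -/
def hit (f : List ℕ) : Bool := outer f (f.headD 0) 20 1 f.tail f.tail.tail

/-- the search; the head of the list is the value of the whole word -/
def dfs : ℕ → ℕ → List ℕ → Bool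
  | 0, _, _ => false
  | k + 1, mx, f =>
    (hit ((f.headD 0 + 1) :: f) || dfs k (Nat.max mx 1) ((f.headD 0 + 1) :: f)) &&
    ((Nat.blt mx 1 || (hit ((f.headD 0 + 1024) :: f) ||
      dfs k (Nat.max mx 2) ((f.headD 0 + 1024) :: f))) &&
    ((Nat.blt mx 2 || (hit ((f.headD 0 + 1048576) :: f) ||
      dfs k (Nat.max mx 3) ((f.headD 0 + 1048576) :: f))) &&
    (Nat.blt mx 3 || (hit ((f.headD 0 + 1073741824) :: f) ||
      dfs k (Nat.max mx 4) ((f.headD 0 + 1073741824) :: f)))))

theorem dfs_true : dfs 32 0 [0] = true := by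
  decide +kernel

end Pool.Agent.TH362.Neck
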