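import Pool.Agent.TH362.Neck.Low

/-!
With at most four colours every colouring of `ℤ` has a block with a fair splitting by two cuts.
-/

set_option autoImplicit false

namespace Pool.Agent.TH362.Neck

open Finset
open Pool.Agent.H257R3.Neck

lemma inner_spec (x y : ℕ) : ∀ (k : ℕ) (g f : List ℕ), inner x y k g f = true →
    ∃ i < k, x + 2 * g.getD i 0 = y + 2 * f.getD i 0 := by
  intro k
  induction k with
  | zero => intro g f h; simp [inner] at h
  | succ k ih =>
    intro g f h
    rw [inner, Bool.or_eq_true] at h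
    rcases h with h | h
    · refine ⟨0, by omega, ?_⟩
      have h' := Nat.eq_of_beq_eq_true h
      cases g <;> cases f <;> simpa using h'
    · obtain ⟨i, hi, h'⟩ := ih _ _ h
      refine ⟨i + 1, by omega, ?_⟩
      cases g <;> cases f <;> simpa using h'

lemma headD_drop (F : List ℕ) (n : ℕ) : (F.drop n).headD 0 = F.getD n 0 := by
  induction n generalizing F with
  | zero => cases F <;> simp
  | succ n ih =>
    cases F with
    | nil => simp
    | cons a F =>
      rw [List.drop_succ_cons, List.getD_cons_succ]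
      exact ih F

lemma getD_drop' (F : List ℕ) (n i : ℕ) : (F.drop n).getD i 0 = F.getD (n + i) 0 := by
  simp [List.getD_eq_getElem?_getD, List.getElem?_drop]

lemma tail_drop' (F : List ℕ) (n : ℕ) : (F.drop n).tail = F.drop (n + 1) := by
  rw [List.tail_drop]

lemma outer_spec (F : List ℕ) (x : ℕ) : ∀ (k n : ℕ), outer F x k n (F.drop n) (F.drop (2 * n)) = true →
    ∃ m, n ≤ m ∧ ∃ i ≤ m, 2 * m < F.length ∧
      x + 2 * F.getD (m + i) 0 = F.getD (2 * m) 0 + 2 * F.getD i 0 := by
  intro k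
  induction k with
  | zero => intro n h; simp [outer] at h
  | succ k ih =>
    intro n h
    rw [outer, Bool.or_eq_true] at h
    rcases h with h | h
    · rw [Bool.and_eq_true, Bool.and_eq_true] at h
      obtain ⟨h1, -, h3⟩ := h
      have h1' := Nat.le_of_ble_eq_true h1
      rw [List.length_drop] at h1'
      obtain ⟨i, hi, h4⟩ := inner_spec _ _ _ _ _ h3
      rw [headD_drop, getD_drop'] at h4
      exact ⟨n, le_rfl, i, by omega, by omega, h4⟩
    · rw [tail_drop', tail_drop', tail_drop'] at h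
      have e : 2 * n + 1 + 1 = 2 * (n + 1) := by ring
      rw [e] at h
      obtain ⟨m, hm, i, hi, h2, h3⟩ := ih (n + 1) h
      exact ⟨m, by omega, i, hi, h2, h3⟩

lemma hit_spec (F : List ℕ) (h : hit F = true) : ∃ m, 1 ≤ m ∧ ∃ i ≤ m, 2 * m < F.length ∧
    F.getD 0 0 + 2 * F.getD (m + i) 0 = F.getD (2 * m) 0 + 2 * F.getD i 0 := by
  unfold hit at h
  have e1 : F.tail = F.drop 1 := by cases F <;> simp
  have e2 : F.tail.tail = F.drop (2 * 1) := by rw [e1, tail_drop']
  have e3 : F.headD 0 = F.getD 0 0 := by cases F <;> simp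
  rw [e2, e1, e3] at h
  exact outer_spec F _ _ _ h

/-- the packed counts -/
def pk (v : ℕ → ℕ) : ℕ → ℕ
  | 0 => 0
  | i + 1 => pk v i + 1024 ^ v i

/-- `[pk v N, pk v (N-1), …, pk v 0]` -/
def lst (v : ℕ → ℕ) : ℕ → List ℕ
  | 0 => [0]
  | N + 1 => pk v (N + 1) :: lst v N

lemma lst_len (v : ℕ → ℕ) (N : ℕ) : (lst v N).length = N + 1 := by
  induction N with
  | zero => rfl
  | succ N ih => simp [lst, ih]

lemma lst_getD (v : ℕ → ℕ) (N i : ℕ) (hi : i ≤ N) : (lst v N).getD i 0 = pk v (N - i) := by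
  induction N generalizing i with
  | zero =>
    have : i = 0 := by omega
    subst this
    rfl
  | succ N ih =>
    rcases Nat.eq_zero_or_pos i with h | h
    · subst h
      simp [lst]
    · obtain ⟨j, rfl⟩ : ∃ j, i = j + 1 := ⟨i - 1, by omega⟩
      rw [lst, List.getD_cons_succ, ih j (by omega)]
      congr 1
      omega

lemma lst_headD (v : ℕ → ℕ) (N : ℕ) : (lst v N).headD 0 = pk v N := by
  cases N <;> simp [lst, pk]

lemma pk_congr (v v' : ℕ → ℕ) (N : ℕ) (h : ∀ i < N, v i = v' i) : ∀ i ≤ N, pk v i = pk v' i := by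
  intro i
  induction i with
  | zero => intro _; rfl
  | succ i ih =>
    intro hi
    rw [pk, pk, ih (by omega), h i (by omega)]

lemma lst_congr (v v' : ℕ → ℕ) (N : ℕ) (h : ∀ i < N, v i = v' i) : lst v N = lst v' N := by
  induction N with
  | zero => rfl
  | succ N ih =>
    rw [lst, lst, ih (fun i hi => h i (by omega)), pk_congr v v' (N + 1) h _ le_rfl]

lemma pk_eq (v : ℕ → ℕ) (hv : ∀ i, v i < 4) (N : ℕ) :
    (pk v N : ℤ) = ∑ a ∈ range 4, cnt v a N * 1024 ^ a := by
  induction N with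
  | zero => simp [pk, cnt]
  | succ N ih =>
    rw [pk]
    push_cast
    rw [ih]
    have : ∀ a ∈ range 4, cnt v a (N + 1) * 1024 ^ a =
        cnt v a N * 1024 ^ a + (if a = v N then (1024 : ℤ) ^ a else 0) := by
      intro a _
      rw [cnt]
      by_cases h : v N = a
      · rw [if_pos h, if_pos h.symm]; ring
      · rw [if_neg h, if_neg (fun h' => h h'.symm)]; ring
    rw [Finset.sum_congr rfl this, Finset.sum_add_distrib, Finset.sum_ite_eq' (range 4) (v N)]
    rw [if_pos (mem_range.mpr (hv N))]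

lemma dd_of_pk (v : ℕ → ℕ) (hv : ∀ i, v i < 4) (p0 p1 p2 p3 : ℕ) (h01 : p0 ≤ p1) (h12 : p1 ≤ p2)
    (h23 : p2 ≤ p3) (h3 : p3 ≤ 100) (h : pk v p3 + 2 * pk v p1 = pk v p0 + 2 * pk v p2) :
    ∀ a < 4, dd v a p0 p1 p2 p3 = 0 := by
  apply evf_inj 4
  · intro a _
    unfold dd
    have b0 := cnt_bound v a p0
    have b1 := cnt_bound v a p1
    have b2 := cnt_bound v a p2
    have b3 := cnt_bound v a p3
    constructor <;> omega
  · have h' : (pk v p3 : ℤ) + 2 * pk v p1 = pk v p0 + 2 * pk v p2 := by exact_mod_cast h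
    rw [pk_eq v hv, pk_eq v hv, pk_eq v hv, pk_eq v hv] at h'
    have : ∑ a ∈ range 4, dd v a p0 p1 p2 p3 * 1024 ^ a =
        ∑ a ∈ range 4, cnt v a p0 * 1024 ^ a - 2 * ∑ a ∈ range 4, cnt v a p1 * 1024 ^ a
          + 2 * ∑ a ∈ range 4, cnt v a p2 * 1024 ^ a - ∑ a ∈ range 4, cnt v a p3 * 1024 ^ a := by
      rw [Finset.mul_sum, Finset.mul_sum, ← Finset.sum_sub_distrib, ← Finset.sum_add_distrib,
        ← Finset.sum_sub_distrib]
      apply Finset.sum_congr rfl
      intro a _
      unfold dd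
      ring
    rw [this]
    linear_combination -h'

lemma cnt_perm (w : ℕ → ℕ) (ρ : Equiv.Perm ℕ) (a i : ℕ) :
    cnt (fun i => ρ (w i)) (ρ a) i = cnt w a i := by
  induction i with
  | zero => rfl
  | succ i ih =>
    rw [cnt, cnt, ih]
    simp only [EmbeddingLike.apply_eq_iff_eq]

lemma dfs_sound (w : ℕ → ℕ) (hw : ∀ i, w i < 4) : ∀ (k N mx : ℕ) (ρ : Equiv.Perm ℕ),
    N + k ≤ 100 → (∀ a < 4, ρ a < 4) → (∀ i < N, ρ (w i) < mx) →
    dfs k mx (lst (fun i => ρ (w i)) N) = true →
    ∃ p0 p1 p2 p3, p0 ≤ p1 ∧ p1 ≤ p2 ∧ p2 ≤ p3 ∧ p0 < p3 ∧ ∀ a < 4, dd w a p0 p1 p2 p3 = 0 := by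
  intro k
  induction k with
  | zero => intro N mx ρ _ _ _ h; simp [dfs] at h
  | succ k ih =>
    intro N mx ρ hN hρ hmx h
    -- a permutation with `ρ' (w N) ≤ mx`
    obtain ⟨ρ', h1, h2, h3⟩ : ∃ ρ' : Equiv.Perm ℕ, (∀ a < 4, ρ' a < 4) ∧ ρ' (w N) ≤ mx ∧
        ∀ i < N, ρ' (w i) = ρ (w i) := by
      rcases Nat.lt_or_ge (ρ (w N)) mx with hlt | hge
      · exact ⟨ρ, hρ, hlt.le, fun _ _ => rfl⟩
      · refine ⟨ρ.trans (Equiv.swap (ρ (w N)) mx), ?_, ?_, ?_⟩
        · intro a ha
          have hb := hρ (w N) (hw N)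
          have hc := hρ a ha
          rw [Equiv.trans_apply, Equiv.swap_apply_def]
          split
          · omega
          · split <;> omega
        · rw [Equiv.trans_apply, Equiv.swap_apply_left]
        · intro i hi
          have := hmx i hi
          rw [Equiv.trans_apply, Equiv.swap_apply_of_ne_of_ne (by omega) (by omega)]
    have hl : lst (fun i => ρ (w i)) N = lst (fun i => ρ' (w i)) N :=
      lst_congr _ _ N (fun i hi => (h3 i hi).symm)
    rw [hl] at h
    have hc4 := h1 (w N) (hw N)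
    have hstep : (hit (lst (fun i => ρ' (w i)) (N + 1)) ||
        dfs k (Nat.max mx (ρ' (w N) + 1)) (lst (fun i => ρ' (w i)) (N + 1))) = true := by
      rw [dfs, lst_headD] at h
      rw [Bool.and_eq_true, Bool.and_eq_true, Bool.and_eq_true] at h
      obtain ⟨g0, g1, g2, g3⟩ := h
      rw [lst, pk]
      have hcase : ρ' (w N) = 0 ∨ ρ' (w N) = 1 ∨ ρ' (w N) = 2 ∨ ρ' (w N) = 3 := by omega
      rcases hcase with hc | hc | hc | hc
      · rw [hc]
        exact g0
      · rw [hc] at h2 ⊢
        rw [Bool.or_eq_true] at g1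
        rcases g1 with g1 | g1
        · simp only [Nat.blt_eq] at g1
          omega
        · exact g1
      · rw [hc] at h2 ⊢
        rw [Bool.or_eq_true] at g2
        rcases g2 with g2 | g2
        · simp only [Nat.blt_eq] at g2
          omega
        · exact g2
      · rw [hc] at h2 ⊢
        rw [Bool.or_eq_true] at g3
        rcases g3 with g3 | g3
        · simp only [Nat.blt_eq] at g3
          omega
        · exact g3
    rw [Bool.or_eq_true] at hstep
    rcases hstep with hh | hd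
    · obtain ⟨m, hm, i, hi, h4, h5⟩ := hit_spec _ hh
      rw [lst_len] at h4
      rw [lst_getD _ _ _ (by omega), lst_getD _ _ _ (by omega), lst_getD _ _ _ (by omega),
        lst_getD _ _ _ (by omega)] at h5
      refine ⟨N + 1 - 2 * m, N + 1 - (m + i), N + 1 - i, N + 1 - 0, by omega, by omega, by omega,
        by omega, ?_⟩
      have hz := dd_of_pk (fun i => ρ' (w i)) (fun i => h1 _ (hw i)) (N + 1 - 2 * m)
        (N + 1 - (m + i)) (N + 1 - i) (N + 1 - 0) (by omega) (by omega) (by omega) (by omega) h5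
      intro a ha
      have := hz (ρ' a) (h1 a ha)
      unfold dd at this ⊢
      rwa [cnt_perm, cnt_perm, cnt_perm, cnt_perm] at this
    · refine ih (N + 1) _ ρ' (by omega) h1 ?_ hd
      intro i hi
      rcases Nat.lt_or_ge i N with hiN | hiN
      · have e1 := h3 i hiN
        have e2 := hmx i hiN
        rw [e1]
        exact lt_of_lt_of_le e2 (Nat.le_max_left _ _)
      · have : i = N := by omega
        subst this
        exact lt_of_lt_of_le (Nat.lt_succ_self _) (Nat.le_max_right _ _)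

theorem low_word (w : ℕ → ℕ) (hw : ∀ i, w i < 4) :
    ∃ p0 p1 p2 p3, p0 ≤ p1 ∧ p1 ≤ p2 ∧ p2 ≤ p3 ∧ p0 < p3 ∧ ∀ a < 4, dd w a p0 p1 p2 p3 = 0 := by
  apply dfs_sound w hw 32 0 0 (Equiv.refl ℕ) (by omega) (fun a ha => ha) (fun i hi => by omega)
  exact dfs_true

theorem not_avoidable {k : ℕ} (hk : k ≤ 4) : ¬ Avoidable 2 1 k := by
  classical
  rintro ⟨c, hc⟩
  set w : ℕ → ℕ := fun i => (c (fun _ => (i : ℤ)) : ℕ) with hw
  have hwk : ∀ i, w i < k := fun i => (c _).isLt
  obtain ⟨p0, p1, p2, p3, h01, h12, h23, h03, hd⟩ := low_word w (fun i => lt_of_lt_of_le (hwk i) hk)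
  set a : Fin 1 → ℤ := fun _ => (p0 : ℤ) - 1 with ha
  have hpt : ∀ t : ℕ, ptz a t = fun _ => ((p0 + t : ℕ) : ℤ) := by
    intro t
    funext i
    unfold ptz
    rw [ha]
    push_cast
    ring
  refine hc a (p3 - p0) (by omega) ⟨{(0, (p1 : ℤ) - 1), (0, (p2 : ℤ) - 1)}, ?_,
    fun x => decide ((p1 : ℤ) ≤ x 0 ∧ x 0 < p2), ?_, ?_⟩
  · exact Finset.card_le_two
  · intro x _ y _ hxy
    have e1 := hxy (0, (p1 : ℤ) - 1) (by simp)
    have e2 := hxy (0, (p2 : ℤ) - 1) (by simp)
    simp only at e1 e2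
    have : ((p1 : ℤ) ≤ x 0 ∧ x 0 < p2) ↔ ((p1 : ℤ) ≤ y 0 ∧ y 0 < p2) := by
      constructor
      · rintro ⟨h1, h2⟩
        constructor
        · by_contra h
          have := e1.mpr (by omega)
          omega
        · by_contra h
          have := e2.mp (by omega)
          omega
      · rintro ⟨h1, h2⟩
        constructor
        · by_contra h
          have := e1.mp (by omega)
          omega
        · by_contra h
          have := e2.mpr (by omega)
          omega
    simp only [this]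
  · intro j
    rw [box_card, box_card, Finset.card_filter, Finset.card_filter]
    have hz := hd j (lt_of_lt_of_le j.isLt hk)
    set sg : ℕ → ℤ := fun t => if (p1 ≤ p0 + t ∧ p0 + t < p2) then 1 else -1 with hsg
    have hsum : ∑ t ∈ Finset.Ico 0 (p3 - p0), (if w (p0 + t) = j then sg t else 0) = 0 := by
      rw [← Finset.sum_Ico_consecutive _ (Nat.zero_le (p1 - p0)) (by omega : p1 - p0 ≤ p3 - p0),
        ← Finset.sum_Ico_consecutive _ (by omega : p1 - p0 ≤ p2 - p0)
          (by omega : p2 - p0 ≤ p3 - p0),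
        signed_part w j p0 0 (p1 - p0) (Nat.zero_le _) sg (-1),
        signed_part w j p0 (p1 - p0) (p2 - p0) (by omega) sg 1,
        signed_part w j p0 (p2 - p0) (p3 - p0) (by omega) sg (-1)]
      · have e0 : p0 + 0 = p0 := by omega
        have e1 : p0 + (p1 - p0) = p1 := by omega
        have e2 : p0 + (p2 - p0) = p2 := by omega
        have e3 : p0 + (p3 - p0) = p3 := by omega
        rw [e0, e1, e2, e3]
        unfold dd at hz
        linear_combination hz
      · intro t h1 h2
        rw [hsg]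
        simp only
        rw [if_neg (by omega)]
      · intro t h1 h2
        rw [hsg]
        simp only
        rw [if_pos (by omega)]
      · intro t h1 h2
        rw [hsg]
        simp only
        rw [if_neg (by omega)]
    have key : (∑ t ∈ range (p3 - p0), (if c (ptz a t) = j ∧
          (decide ((p1 : ℤ) ≤ ptz a t 0 ∧ ptz a t 0 < p2)) = true then (1 : ℤ) else 0)) -
        ∑ t ∈ range (p3 - p0), (if c (ptz a t) = j ∧
          (decide ((p1 : ℤ) ≤ ptz a t 0 ∧ ptz a t 0 < p2)) = false then (1 : ℤ) else 0) = 0 := by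
      rw [← Finset.sum_sub_distrib, Finset.range_eq_Ico]
      refine Eq.trans ?_ hsum
      apply Finset.sum_congr rfl
      intro t _
      have hct : c (ptz a t) = j ↔ w (p0 + t) = j := by
        rw [hpt t, hw]
        exact Fin.ext_iff
      have hcond : ((p1 : ℤ) ≤ ptz a t 0 ∧ ptz a t 0 < p2) ↔ (p1 ≤ p0 + t ∧ p0 + t < p2) := by
        rw [hpt t]
        show ((p1 : ℤ) ≤ ((p0 + t : ℕ) : ℤ) ∧ ((p0 + t : ℕ) : ℤ) < p2) ↔ _
        constructor
        · rintro ⟨h1, h2⟩; constructor <;> omega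
        · rintro ⟨h1, h2⟩; constructor <;> omega
      rw [hsg]
      simp only [decide_eq_true_eq, decide_eq_false_iff_not, hct, hcond]
      by_cases h1 : w (p0 + t) = j <;> by_cases h2 : (p1 ≤ p0 + t ∧ p0 + t < p2) <;>
        simp [h1, h2]
    have key' := sub_eq_zero.mp key
    exact_mod_cast key'

theorem five_le : (5 : ℕ∞) ≤ g 2 1 := by
  unfold Pool.Agent.H257R3.Neck.g
  refine le_iInf₂ ?_
  intro k hk
  by_contra hlt
  rw [not_le] at hlt
  have : k < 5 := by exact_mod_cast hlt
  exact not_avoidable (by omega) hk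

end Pool.Agent.TH362.Neck
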