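import Pool.Agent.TH362.Neck.Check

/-!
Soundness of the test.
-/

set_option autoImplicit false

namespace Pool.Agent.TH362.Neck

open Finset

lemma dot_eq (l m : List ℤ) (K : ℕ) (hl : l.length = K) (hm : m.length = K) :
    dot l m = ∑ i ∈ range K, l.getD i 0 * m.getD i 0 := by
  induction l generalizing m K with
  | nil =>
    simp only [List.length_nil] at hl
    subst hl
    cases m <;> simp [dot]
  | cons a l ih =>
    cases m with
    | nil => simp only [List.length_nil, List.length_cons] at hl hm; omega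
    | cons b m =>
      simp only [List.length_cons] at hl hm
      rw [dot, ih m (K - 1) (by omega) (by omega)]
      have hK : K = (K - 1) + 1 := by omega
      conv_rhs => rw [hK]
      rw [Finset.sum_range_succ']
      simp only [List.getD_cons_succ, List.getD_cons_zero]
      ring

lemma ev_eq (l : List ℤ) (K : ℕ) (hl : l.length = K) :
    ev l = ∑ i ∈ range K, l.getD i 0 * 1024 ^ i := by
  induction l generalizing K with
  | nil =>
    simp only [List.length_nil] at hl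
    subst hl
    simp [ev]
  | cons a l ih =>
    simp only [List.length_cons] at hl
    rw [ev, ih (K - 1) (by omega)]
    have hK : K = (K - 1) + 1 := by omega
    conv_rhs => rw [hK]
    rw [Finset.sum_range_succ']
    simp only [List.getD_cons_succ, List.getD_cons_zero, pow_zero, mul_one, pow_succ]
    rw [Finset.mul_sum, add_comm]
    congr 1
    apply Finset.sum_congr rfl
    intro i _
    ring

lemma dec_length (k c : ℕ) : (dec k c).length = k := by
  induction k generalizing c with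
  | zero => rfl
  | succ k ih => simp [dec, ih]

lemma getD_map_range (f : ℕ → ℤ) (K i : ℕ) (hi : i < K) :
    ((List.range K).map f).getD i 0 = f i := by
  simp [List.getD_eq_getElem?_getD, hi]

/-- small digits are determined by the value -/
lemma evf_inj (K : ℕ) (t : ℕ → ℤ) (hb : ∀ a < K, -1024 < t a ∧ t a < 1024)
    (h : ∑ a ∈ range K, t a * 1024 ^ a = 0) : ∀ a < K, t a = 0 := by
  induction K generalizing t with
  | zero => intro a ha; omega
  | succ K ih =>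
    rw [Finset.sum_range_succ'] at h
    simp only [pow_zero, mul_one] at h
    have h1 : ∑ a ∈ range K, t (a + 1) * 1024 ^ (a + 1) =
        1024 * ∑ a ∈ range K, t (a + 1) * 1024 ^ a := by
      rw [Finset.mul_sum]
      apply Finset.sum_congr rfl
      intro i _
      ring
    rw [h1] at h
    have h0 := hb 0 (by omega)
    have ht0 : t 0 = 0 := by omega
    rw [ht0] at h
    have hs : ∑ a ∈ range K, t (a + 1) * 1024 ^ a = 0 := by omega
    have := ih (fun a => t (a + 1)) (fun a ha => hb (a + 1) (by omega)) hs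
    intro a ha
    rcases Nat.eq_zero_or_pos a with h' | h'
    · rw [h', ht0]
    · have h2 := this (a - 1) (by omega)
      rwa [Nat.sub_add_cancel h'] at h2

lemma cnt_bound (w : ℕ → ℕ) (a : ℕ) (p : ℕ) : 0 ≤ cnt w a p ∧ cnt w a p ≤ p := by
  induction p with
  | zero => simp [cnt]
  | succ p ih =>
    rw [cnt]
    push_cast
    split <;> constructor <;> omega

lemma bt_iff (m i : ℕ) : bt m i = true ↔ m.testBit i = true := by
  unfold bt
  rw [Nat.beq_eq]
  have e : Nat.land 1 (Nat.shiftRight m i) = 1 &&& (m >>> i) := rfl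
  rw [e, Nat.testBit]
  simp

lemma alt_spec {v q : Bool} {f : Bool → Bool → Bool} (h : alt v q f = true) (c : Bool)
    (hc : c = true → v = true) : f c (c && q) = true := by
  unfold alt at h
  cases v
  · cases c
    · exact h
    · exact absurd (hc rfl) (by decide)
  · have h' := andr_true h
    cases c
    · exact h'.1
    · rw [Bool.true_and]
      exact h'.2

lemma pcn_eq (c0 c1 c2 : Bool) : pcn c0 c1 c2 = pc c0 c1 c2 := by
  cases c0 <;> cases c1 <;> cases c2 <;> rfl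

lemma patAll_spec {mask pm : ℕ} {yne : Bool} {x0 x1 x2 x3 : Op}
    (h : patAll mask pm yne x0 x1 x2 x3 = true) {c0 c1 c2 : Bool}
    (k0 : c0 = true → x0.A = x1.A ∧ x0.o ≤ x1.o) (k1 : c1 = true → x1.A = x2.A ∧ x1.o ≤ x2.o)
    (k2 : c2 = true → x2.A = x3.A ∧ x2.o ≤ x3.o)
    (hm : Nat.testBit mask (pc (c0 && x0.o == x1.o) (c1 && x1.o == x2.o) (c2 && x2.o == x3.o)) = true) :
    (c0 = true ∧ c1 = true ∧ c2 = true ∧ yne = true) ∨
      (¬ (c0 = true ∧ c1 = true ∧ c2 = true) ∧ Nat.testBit pm (pc c0 c1 c2) = true) := by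
  have hv : ∀ (A B o o' : ℕ) (c : Bool), (c = true → A = B ∧ o ≤ o') →
      c = true → andr (Nat.beq A B) (Nat.ble o o') = true := by
    intro A B o o' c h hc
    obtain ⟨e1, e2⟩ := h hc
    have e1' : Nat.beq A B = true := Nat.beq_eq.mpr e1
    have e2' : Nat.ble o o' = true := Nat.ble_eq.mpr e2
    rw [e1', e2']; rfl
  have hbq : ∀ o o' : ℕ, Nat.beq o o' = (o == o') := by
    intro o o'
    rw [Bool.eq_iff_iff, Nat.beq_eq, beq_iff_eq]
  unfold patAll at h
  have h := alt_spec h c0 (hv _ _ _ _ _ k0)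
  have h := alt_spec h c1 (hv _ _ _ _ _ k1)
  have h := alt_spec h c2 (hv _ _ _ _ _ k2)
  rw [hbq, hbq, hbq] at h
  unfold leafP at h
  rw [pcn_eq, pcn_eq, (bt_iff _ _).mpr hm] at h
  have h : @Bool.rec (fun _ => Bool) (bt pm (pc c0 c1 c2)) yne (andr c0 (andr c1 c2)) = true := h
  cases c0
  · exact Or.inr ⟨by simp, (bt_iff _ _).mp h⟩
  · cases c1
    · exact Or.inr ⟨by simp, (bt_iff _ _).mp h⟩
    · cases c2
      · exact Or.inr ⟨by simp, (bt_iff _ _).mp h⟩
      · exact Or.inl ⟨rfl, rfl, rfl, h⟩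

lemma srch_spec {zc mask lhs rhs : ℕ} {x0 x1 x2 x3 : Op} {fb : Bool} {l : List En}
    (h : srch zc mask lhs rhs x0 x1 x2 x3 fb l = true) :
    (∃ e ∈ l, e.g + rhs = lhs ∧ patAll mask e.m (!(Nat.beq e.c zc)) x0 x1 x2 x3 = true) ∨
      fb = true := by
  induction l with
  | nil => right; exact h
  | cons e t ih =>
    have hc : srch zc mask lhs rhs x0 x1 x2 x3 fb (e :: t) =
        @Bool.rec (fun _ => Bool) (srch zc mask lhs rhs x0 x1 x2 x3 fb t)
          (patAll mask e.m (!(Nat.beq e.c zc)) x0 x1 x2 x3) (Nat.beq (Nat.add e.g rhs) lhs) := rfl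
    rw [hc] at h
    cases hb : Nat.beq (Nat.add e.g rhs) lhs
    · rw [hb] at h
      rcases ih h with ⟨e', he', h1, h2⟩ | h'
      · exact Or.inl ⟨e', List.mem_cons_of_mem _ he', h1, h2⟩
      · exact Or.inr h'
    · rw [hb] at h
      exact Or.inl ⟨e, List.mem_cons_self, Nat.eq_of_beq_eq_true hb, h⟩

lemma memo_spec {y : Op} {l : List Op} (h : memo y l = true) :
    ∃ x ∈ l, x.A = y.A ∧ x.o = y.o ∧ x.c2 = y.c2 := by
  induction l with
  | nil => cases h
  | cons x t ih =>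
    rcases orr_true h with h' | h'
    · obtain ⟨h1, h2⟩ := andr_true h'
      obtain ⟨h2, h3⟩ := andr_true h2
      exact ⟨x, List.mem_cons_self, Nat.eq_of_beq_eq_true h1, Nat.eq_of_beq_eq_true h2,
        Nat.eq_of_beq_eq_true h3⟩
    · obtain ⟨x', hx', h1⟩ := ih h'
      exact ⟨x', List.mem_cons_of_mem _ hx', h1⟩

lemma land_shift_ne (r s k f : ℕ) (hr : r.testBit f = true) (hs : s.testBit (k + f) = true) :
    Nat.land (Nat.shiftLeft r k) s ≠ 0 := by
  intro h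
  have e : Nat.land (Nat.shiftLeft r k) s = (r <<< k) &&& s := rfl
  rw [e] at h
  have h2 : ((r <<< k) &&& s).testBit (k + f) = true := by
    rw [Nat.testBit_and, Nat.testBit_shiftLeft, hs]
    simp [hr]
  rw [h, Nat.zero_testBit] at h2
  exact absurd h2 (by decide)

/-- all tests succeed -/
structure Ok (D : Dat) (zc : ℕ) : Prop where
  H : D.H = (zc : ℤ)
  h : chkH D = true
  pv : chkPv D = true
  opt : chkOpt D = true
  S : ∀ B1 < D.K, ∀ B2 < D.K, chkS D D.N B1 B2 = true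
  T : ∀ B < D.K, chkT D B = true
  adj : chkAdj D = true
  ens : ∀ B0 < D.K, ∀ B1 < D.K, chkEns D B0 B1 = true
  zero : ∀ B0 < D.K, ∀ B1 < D.K, chkZero D zc B0 B1 = true
  rot : ∀ B0 < D.K, ∀ B1 < D.K, chkRot D B0 B1 = true
  main : ∀ B1 < D.K, ∀ B2 < D.K, chkB2 D D.N zc 0 B1 B2 = true

section

variable {D : Dat} {zc : ℕ} (ok : Ok D zc)

include ok

lemma Ok.hh : (∀ b < D.K, ∀ j < D.L, D.hf b j < D.K) ∧ D.hf 0 0 = 0 ∧ 2 ≤ D.L ∧ 1 ≤ D.K ∧
    1 ≤ D.N ∧ D.det ≠ 0 ∧ D.L ≤ 100 := by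
  have h := ok.h
  unfold chkH at h
  simp only [Bool.and_eq_true, List.all_eq_true, List.mem_range] at h
  obtain ⟨⟨⟨⟨⟨⟨h1, h2⟩, h3⟩, h4⟩, h5⟩, h6⟩, h7⟩ := h
  refine ⟨fun b hb j hj => ?_, Nat.eq_of_beq_eq_true h2, Nat.ble_eq.mp h3, Nat.ble_eq.mp h4,
    Nat.ble_eq.mp h5, by simpa using h6, Nat.ble_eq.mp h7⟩
  have := (h1 b hb j hj).1
  simpa [Nat.blt] using this

lemma Ok.heq (b : ℕ) (hb : b < D.K) (j : ℕ) (hj : j < D.L) :
    D.hf ((b + 1) % D.K) j = (D.hf b j + 1) % D.K := by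
  have h := ok.h
  unfold chkH at h
  simp only [Bool.and_eq_true, List.all_eq_true, List.mem_range] at h
  obtain ⟨⟨⟨⟨⟨⟨h1, h2⟩, h3⟩, h4⟩, h5⟩, h6⟩, h7⟩ := h
  exact Nat.eq_of_beq_eq_true (h1 b hb j hj).2

lemma Ok.pvl (b o : ℕ) (hb : b < D.K) (ho : o ≤ D.L) :
    D.pvf b o = (List.range D.K).map (fun a => cnt (D.hf b) a o) := by
  have h := ok.pv
  unfold chkPv at h
  simp only [List.all_eq_true, List.mem_range] at h
  have := h b hb o (by omega)
  exact eq_of_beq this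

lemma Ok.pvg (a b o : ℕ) (ha : a < D.K) (hb : b < D.K) (ho : o ≤ D.L) :
    (D.pvf b o).getD a 0 = cnt (D.hf b) a o := by
  rw [ok.pvl b o hb ho, getD_map_range _ _ _ ha]

lemma Ok.pvlen (b o : ℕ) (hb : b < D.K) (ho : o ≤ D.L) : (D.pvf b o).length = D.K := by
  rw [ok.pvl b o hb ho]; simp

lemma Ok.ops (b o : ℕ) (hb : b < D.K) (ho : o < D.L) : ∃ x ∈ D.optf (D.hf b o), x.A = b ∧ x.o = o ∧
    x.f < D.N ∧ (x.f : ℤ) = dot D.rowf (D.pvf b o) % D.N ∧ (x.c : ℤ) = ev (D.pvf b o) ∧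
    x.g = D.N - x.f ∧ x.s = 2 * x.f ∧ x.t = (2 * x.f) % D.N ∧ x.c2 = 2 * x.c := by
  have h := ok.opt
  unfold chkOpt at h
  simp only [List.all_eq_true, List.mem_range, List.any_eq_true, Bool.and_eq_true] at h
  obtain ⟨x, hx, ⟨⟨⟨⟨⟨⟨⟨h1, h2⟩, h3⟩, h4⟩, h5⟩, h6⟩, h7⟩, h8⟩, h9⟩ := h b hb o ho
  exact ⟨x, hx, Nat.eq_of_beq_eq_true h1, Nat.eq_of_beq_eq_true h2, by simpa [Nat.blt] using h3,
    eq_of_beq h4, eq_of_beq h5, Nat.eq_of_beq_eq_true h6, Nat.eq_of_beq_eq_true h7,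
    Nat.eq_of_beq_eq_true h8, Nat.eq_of_beq_eq_true h9⟩

lemma Ok.sbit (B1 B2 : ℕ) (h1 : B1 < D.K) (h2 : B2 < D.K) (x1 x2 : Op) (hx1 : x1 ∈ D.optf B1)
    (hx2 : x2 ∈ D.optf B2) :
    bt (D.Sf B1 B2) ((x2.s + 2 * x1.g) % D.N) = true ∧
    bt (D.Sf B1 B2) ((x2.s + 2 * x1.g) % D.N + D.N) = true := by
  have h := ok.S B1 h1 B2 h2
  unfold chkS at h
  rw [allr_iff] at h
  have h := h x1 hx1
  rw [allr_iff] at h
  have h := h x2 hx2
  exact andr_true h

lemma Ok.tbit (B : ℕ) (h1 : B < D.K) (x : Op) (hx : x ∈ D.optf B) :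
    bt (D.Tf B) x.t = true ∧ bt (D.Rf B) x.f = true ∧
    ∃ y ∈ (D.Uf B).find x.t, y.A = x.A ∧ y.o = x.o ∧ y.c2 = x.c2 := by
  have h := ok.T B h1
  unfold chkT at h
  rw [allr_iff] at h
  have h := h x hx
  obtain ⟨a, b⟩ := andr_true h
  obtain ⟨b, c⟩ := andr_true b
  exact ⟨a, b, memo_spec c⟩

lemma Ok.adjs : (∀ i < D.K, (D.adj.getD i []).length = D.K) ∧ D.adj.length = D.K ∧
    (∀ i < D.K, ∀ b < D.K, dot (D.adj.getD i []) (D.pvf b D.L) = if i = b then D.det else 0) ∧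
    D.rowf.length = D.K ∧ (∀ b < D.K, dot D.rowf (D.pvf b D.L) % D.N = 0) := by
  have h := ok.adj
  unfold chkAdj at h
  simp only [Bool.and_eq_true, List.all_eq_true, List.mem_range] at h
  obtain ⟨⟨⟨⟨h1, h2⟩, h3⟩, h4⟩, h5⟩ := h
  have hlen := Nat.eq_of_beq_eq_true h1
  refine ⟨fun i hi => ?_, hlen, fun i hi b hb => eq_of_beq (h3 i hi b hb),
    Nat.eq_of_beq_eq_true h4, fun b hb => by simpa using h5 b hb⟩
  have hi' : i < D.adj.length := by rw [hlen]; exact hi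
  have : D.adj.getD i [] ∈ D.adj := by
    rw [List.getD_eq_getElem _ _ hi']
    exact List.getElem_mem hi'
  exact Nat.eq_of_beq_eq_true (h2 _ this)

lemma Ok.en (B0 B1 B2 B3 : ℕ) (h0 : B0 < D.K) (h1 : B1 < D.K) (h2 : B2 < D.K) (h3 : B3 < D.K)
    (e : En) (he : e ∈ D.tb B0 B1 B2 B3) :
    e.f < D.N ∧ (e.f : ℤ) = dot D.rowf (dec D.K e.c) % D.N ∧ ev (dec D.K e.c) + D.H = (e.c : ℤ) ∧
    (∀ t ∈ dec D.K e.c, -8 ≤ t ∧ t ≤ 8) ∧ ev (mvec D (dec D.K e.c)) + D.H = (e.g : ℤ) ∧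
    (∀ t ∈ mvec D (dec D.K e.c), -400 ≤ t ∧ t ≤ 400) := by
  have h := ok.ens B0 h0 B1 h1
  unfold chkEns at h
  rw [allr_iff] at h
  have h' := h B2 (List.mem_range.mpr h2)
  rw [allr_iff] at h'
  have h'' := h' B3 (List.mem_range.mpr h3)
  rw [allr_iff] at h''
  have hf := h'' e he
  unfold chkEn at hf
  simp only [Bool.and_eq_true, List.all_eq_true, decide_eq_true_eq] at hf
  obtain ⟨⟨⟨⟨⟨a1, a2⟩, a3⟩, a4⟩, a5⟩, a6⟩ := hf
  exact ⟨by simpa [Nat.blt] using a1, eq_of_beq a2, eq_of_beq a3, a4, eq_of_beq a5, a6⟩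

end

/-- the family of bad types -/
def BadD (D : Dat) (x : ℕ → ℤ) (B0 B1 B2 B3 pt : ℕ) : Prop :=
  ∃ e ∈ D.tb B0 B1 B2 B3, Nat.testBit e.m pt = true ∧ ∀ a < D.K, x a = (dec D.K e.c).getD a 0

lemma Ok.step0 {D : Dat} {zc : ℕ} (ok : Ok D zc) (x y : ℕ → ℤ) (A0 A1 A2 A3 o0 o1 o2 o3 : ℕ)
    (c0 c1 c2 : Bool) (hB00 : D.hf A0 o0 = 0) (hA0 : A0 < D.K) (hA1 : A1 < D.K) (hA2 : A2 < D.K) (hA3 : A3 < D.K)
    (ho0 : o0 < D.L) (ho1 : o1 < D.L) (ho2 : o2 < D.L) (ho3 : o3 < D.L)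
    (k0 : c0 = true → A0 = A1 ∧ o0 ≤ o1) (k1 : c1 = true → A1 = A2 ∧ o1 ≤ o2)
    (k2 : c2 = true → A2 = A3 ∧ o2 ≤ o3)
    (hxy : ∀ a < D.K, x a = ∑ b ∈ range D.K, cnt (D.hf b) a D.L * y b +
      (cnt (D.hf A0) a o0 - 2 * cnt (D.hf A1) a o1 + 2 * cnt (D.hf A2) a o2 - cnt (D.hf A3) a o3))
    (hbad : BadD D x (D.hf A0 o0) (D.hf A1 o1) (D.hf A2 o2) (D.hf A3 o3)
      (pc (c0 && o0 == o1) (c1 && o1 == o2) (c2 && o2 == o3))) :
    (c0 = true ∧ c1 = true ∧ c2 = true ∧ ∃ b < D.K, y b ≠ 0) ∨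
      (¬ (c0 = true ∧ c1 = true ∧ c2 = true) ∧ BadD D y A0 A1 A2 A3 (pc c0 c1 c2)) := by
  obtain ⟨hlt, -, hL2, hK1, hN1, hdet, hL40⟩ := ok.hh
  obtain ⟨hal, hal', hadj, hrl, hrow⟩ := ok.adjs
  obtain ⟨e, he, hem, hex⟩ := hbad
  have hB0 := hlt A0 hA0 o0 ho0
  have hB1 := hlt A1 hA1 o1 ho1
  have hB2 := hlt A2 hA2 o2 ho2
  have hB3 := hlt A3 hA3 o3 ho3
  obtain ⟨x0, hx0, hx0A, hx0o, hx0f, hx0f', hx0c, hx0g, hx0s, hx0t, hx0c2⟩ :=
    ok.ops A0 o0 hA0 ho0
  obtain ⟨x1, hx1, hx1A, hx1o, hx1f, hx1f', hx1c, hx1g, hx1s, hx1t, hx1c2⟩ :=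
    ok.ops A1 o1 hA1 ho1
  obtain ⟨x2, hx2, hx2A, hx2o, hx2f, hx2f', hx2c, hx2g, hx2s, hx2t, hx2c2⟩ :=
    ok.ops A2 o2 hA2 ho2
  obtain ⟨x3, hx3, hx3A, hx3o, hx3f, hx3f', hx3c, hx3g, hx3s, hx3t, hx3c2⟩ :=
    ok.ops A3 o3 hA3 ho3
  obtain ⟨hef, hef', hec, hed, heg, hem'⟩ := ok.en _ _ _ _ hB0 hB1 hB2 hB3 e he
  set d := dec D.K e.c with hd
  have hdl : d.length = D.K := dec_length _ _
  -- vector equation
  have hz : ∀ a < D.K, ∑ b ∈ range D.K, (D.pvf b D.L).getD a 0 * y b = d.getD a 0 -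
      ((D.pvf A0 o0).getD a 0 - 2 * (D.pvf A1 o1).getD a 0 + 2 * (D.pvf A2 o2).getD a 0
        - (D.pvf A3 o3).getD a 0) := by
    intro a ha
    rw [← hex a ha, hxy a ha, ok.pvg a A0 o0 ha hA0 ho0.le, ok.pvg a A1 o1 ha hA1 ho1.le,
      ok.pvg a A2 o2 ha hA2 ho2.le, ok.pvg a A3 o3 ha hA3 ho3.le]
    have : ∑ b ∈ range D.K, (D.pvf b D.L).getD a 0 * y b =
        ∑ b ∈ range D.K, cnt (D.hf b) a D.L * y b := by
      apply Finset.sum_congr rfl
      intro b hb
      rw [ok.pvg a b D.L ha (mem_range.mp hb) le_rfl]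
    rw [this]
    ring
  -- linear functional
  have hfun : ∀ r : List ℤ, r.length = D.K →
      dot r d - (dot r (D.pvf A0 o0) - 2 * dot r (D.pvf A1 o1) + 2 * dot r (D.pvf A2 o2)
        - dot r (D.pvf A3 o3)) = ∑ b ∈ range D.K, dot r (D.pvf b D.L) * y b := by
    intro r hr
    rw [dot_eq r d D.K hr hdl, dot_eq r _ D.K hr (ok.pvlen A0 o0 hA0 ho0.le),
      dot_eq r _ D.K hr (ok.pvlen A1 o1 hA1 ho1.le), dot_eq r _ D.K hr (ok.pvlen A2 o2 hA2 ho2.le),
      dot_eq r _ D.K hr (ok.pvlen A3 o3 hA3 ho3.le)]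
    have e1 : ∑ b ∈ range D.K, dot r (D.pvf b D.L) * y b =
        ∑ a ∈ range D.K, r.getD a 0 * ∑ b ∈ range D.K, (D.pvf b D.L).getD a 0 * y b := by
      have : ∀ b ∈ range D.K, dot r (D.pvf b D.L) * y b =
          ∑ a ∈ range D.K, r.getD a 0 * ((D.pvf b D.L).getD a 0 * y b) := by
        intro b hb
        rw [dot_eq r _ D.K hr (ok.pvlen b D.L (mem_range.mp hb) le_rfl), Finset.sum_mul]
        apply Finset.sum_congr rfl
        intro a _
        ring
      rw [Finset.sum_congr rfl this, Finset.sum_comm]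
      apply Finset.sum_congr rfl
      intro a _
      rw [Finset.mul_sum]
    rw [e1]
    have e2 : ∀ a ∈ range D.K, r.getD a 0 * ∑ b ∈ range D.K, (D.pvf b D.L).getD a 0 * y b =
        r.getD a 0 * d.getD a 0 - (r.getD a 0 * (D.pvf A0 o0).getD a 0
          - 2 * (r.getD a 0 * (D.pvf A1 o1).getD a 0) + 2 * (r.getD a 0 * (D.pvf A2 o2).getD a 0)
          - r.getD a 0 * (D.pvf A3 o3).getD a 0) := by
      intro a ha
      rw [hz a (mem_range.mp ha)]
      ring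
    rw [Finset.sum_congr rfl e2, Finset.sum_sub_distrib, Finset.sum_sub_distrib,
      Finset.sum_add_distrib, Finset.sum_sub_distrib, ← Finset.mul_sum, ← Finset.mul_sum]
  -- residues
  have hres : (D.N : ℤ) ∣ ((e.f : ℤ) + x3.f - x0.f) - (2 * x2.f - 2 * x1.f) := by
    have h1 := hfun D.rowf hrl
    have h2 : (D.N : ℤ) ∣ ∑ b ∈ range D.K, dot D.rowf (D.pvf b D.L) * y b := by
      apply Finset.dvd_sum
      intro b hb
      exact Dvd.dvd.mul_right (Int.dvd_of_emod_eq_zero (hrow b (mem_range.mp hb))) _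
    rw [← h1] at h2
    have m : ∀ (t : ℤ), (D.N : ℤ) ∣ t - t % D.N := fun t => Int.dvd_self_sub_emod
    have r1 := m (dot D.rowf d)
    have r2 := m (dot D.rowf (D.pvf A0 o0))
    have r3 := m (dot D.rowf (D.pvf A1 o1))
    have r4 := m (dot D.rowf (D.pvf A2 o2))
    have r5 := m (dot D.rowf (D.pvf A3 o3))
    rw [← hef'] at r1
    rw [← hx0f'] at r2
    rw [← hx1f'] at r3
    rw [← hx2f'] at r4
    rw [← hx3f'] at r5
    obtain ⟨q1, hq1⟩ := r1
    obtain ⟨q2, hq2⟩ := r2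
    obtain ⟨q3, hq3⟩ := r3
    obtain ⟨q4, hq4⟩ := r4
    obtain ⟨q5, hq5⟩ := r5
    obtain ⟨q, hq⟩ := h2
    refine ⟨q - q1 + q2 - 2 * q3 + 2 * q4 - q5, ?_⟩
    linear_combination hq - hq1 + hq2 - 2 * hq3 + 2 * hq4 - hq5
  have hkey1 : (e.f + x3.f + (D.N - x0.f)) % D.N = (2 * x2.f + 2 * (D.N - x1.f)) % D.N := by
    have : ((e.f + x3.f + (D.N - x0.f) : ℕ) : ℤ) ≡ ((2 * x2.f + 2 * (D.N - x1.f) : ℕ) : ℤ)
        [ZMOD D.N] := by
      rw [Int.modEq_iff_dvd]
      push_cast [Nat.cast_sub hx0f.le, Nat.cast_sub hx1f.le]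
      obtain ⟨q, hq⟩ := hres
      exact ⟨1 - q, by linear_combination -hq⟩
    exact (Int.natCast_modEq_iff.mp this)
  have hkey2 : (e.f + x3.f + (D.N - x0.f) + 2 * x1.f) % D.N = (2 * x2.f) % D.N := by
    have : ((e.f + x3.f + (D.N - x0.f) + 2 * x1.f : ℕ) : ℤ) ≡ ((2 * x2.f : ℕ) : ℤ)
        [ZMOD D.N] := by
      rw [Int.modEq_iff_dvd]
      push_cast [Nat.cast_sub hx0f.le]
      obtain ⟨q, hq⟩ := hres
      exact ⟨-1 - q, by linear_combination -hq⟩
    exact (Int.natCast_modEq_iff.mp this)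
  obtain ⟨hs1, hs1'⟩ := ok.sbit _ _ hB1 hB2 x1 x2 hx1 hx2
  obtain ⟨hs2, -, x2', hx2', hx2A', hx2o', hx2c'⟩ := ok.tbit _ hB2 x2 hx2
  obtain ⟨-, hs3, -⟩ := ok.tbit _ hB3 x3 hx3
  rw [hx2s, hx1g] at hs1 hs1'
  rw [hx2t] at hs2 hx2'
  -- the test
  have hm := ok.main _ hB1 _ hB2
  rw [← hB00] at hm
  unfold chkB2 at hm
  rw [allr_iff] at hm
  have hm := hm _ (List.mem_range.mpr hB3)
  unfold chkB at hm
  rw [allr_iff] at hm
  have hm := hm e he
  unfold chkE at hm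
  rw [allr_iff] at hm
  have hm := hm x0 hx0
  have hk : Nat.mod (Nat.add e.f x0.g) D.N = (e.f + (D.N - x0.f)) % D.N := by
    rw [← hx0g]; rfl
  rw [hk] at hm
  set k := (e.f + (D.N - x0.f)) % D.N with hkdef
  have hkN : k < D.N := Nat.mod_lt _ hN1
  have hmod : (k + x3.f) % D.N = (e.f + x3.f + (D.N - x0.f)) % D.N := by
    rw [hkdef, Nat.mod_add_mod]
    congr 1
    omega
  rcases orr_true hm with hm | hm
  · exfalso
    have hm := Nat.eq_of_beq_eq_true hm
    refine land_shift_ne _ _ k x3.f ((bt_iff _ _).mp hs3) ?_ hm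
    rw [← hkey1, ← hmod] at hs1 hs1'
    rcases Nat.lt_or_ge (k + x3.f) D.N with hlt' | hge'
    · rw [Nat.mod_eq_of_lt hlt'] at hs1
      exact (bt_iff _ _).mp hs1
    · have hm2 : (k + x3.f) % D.N + D.N = k + x3.f := by
        rw [Nat.mod_eq_sub_mod hge', Nat.mod_eq_of_lt (by omega)]
        omega
      rw [hm2] at hs1'
      exact (bt_iff _ _).mp hs1'
  unfold lvl3 at hm
  rw [allr_iff] at hm
  have hm := hm x3 hx3
  have hk3 : Nat.mod (Nat.add k x3.f) D.N = (2 * x2.f + 2 * (D.N - x1.f)) % D.N := by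
    rw [← hkey1, ← hmod]; rfl
  rw [hk3, hs1] at hm
  have hm : lvl1 D D.N zc (D.Tf (D.hf A2 o2)) (D.Uf (D.hf A2 o2)) (D.optf (D.hf A1 o1)) e x0 x3
    ((2 * x2.f + 2 * (D.N - x1.f)) % D.N) = true := hm
  unfold lvl1 at hm
  rw [allr_iff] at hm
  have hm := hm x1 hx1
  have hk4 : Nat.mod (Nat.add ((2 * x2.f + 2 * (D.N - x1.f)) % D.N) x1.s) D.N =
      (2 * x2.f) % D.N := by
    have e1 : Nat.mod (Nat.add ((2 * x2.f + 2 * (D.N - x1.f)) % D.N) x1.s) D.N =
      ((2 * x2.f + 2 * (D.N - x1.f)) % D.N + x1.s) % D.N := rfl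
    rw [e1, hx1s, Nat.mod_add_mod]
    have e2 : 2 * x2.f + 2 * (D.N - x1.f) + 2 * x1.f = 2 * x2.f + D.N * 2 := by omega
    rw [e2, Nat.add_mul_mod_self_left]
  rw [hk4, hs2] at hm
  have hm : fin2 D zc e x0 x1 x3 ((D.Uf (D.hf A2 o2)).find ((2 * x2.f) % D.N)) = true := hm
  unfold fin2 at hm
  rw [allr_iff] at hm
  have hm := hm x2' hx2'
  unfold fin1 at hm
  rw [hx2c', hx2A', hx2o'] at hm
  have hpa : ∀ (mask pm : ℕ) (yne : Bool), patAll mask pm yne x0 x1 x2' x3 =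
      patAll mask pm yne x0 x1 x2 x3 := by
    intro mask pm yne
    unfold patAll
    rw [hx2A', hx2o']
  rw [hpa] at hm
  rw [hx0A, hx1A, hx2A, hx3A, hx0o, hx1o, hx2o, hx3o] at hm
  rcases srch_spec hm with ⟨e', he', hg, hp⟩ | hfb
  · -- a parent entry
    obtain ⟨-, -, hec', hed', heg', hem2⟩ := ok.en _ _ _ _ hA0 hA1 hA2 hA3 e' he'
    set d' := dec D.K e'.c with hd'
    have hdl' : d'.length = D.K := dec_length _ _
    have hml : (mvec D d').length = D.K := by unfold mvec; simp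
    have hmg : ∀ a < D.K, (mvec D d').getD a 0 =
        ∑ b ∈ range D.K, (D.pvf b D.L).getD a 0 * d'.getD b 0 := by
      intro a ha
      unfold mvec
      rw [getD_map_range _ _ _ ha, dot_eq _ _ D.K (by simp) hdl']
      apply Finset.sum_congr rfl
      intro b hb
      rw [getD_map_range _ _ _ (mem_range.mp hb)]
      rfl
    have hval : ev d + 2 * ev (D.pvf A1 o1) + ev (D.pvf A3 o3) =
        ev (mvec D d') + (ev (D.pvf A0 o0) + 2 * ev (D.pvf A2 o2)) := by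
      have hg' : ((e'.g + (x0.c + 2 * x2.c) : ℕ) : ℤ) = ((e.c + 2 * x1.c + x3.c : ℕ) : ℤ) := by
        rw [← hx1c2, ← hx2c2]
        exact congrArg _ hg
      push_cast at hg'
      rw [← heg', ← hec, hx0c, hx1c, hx2c, hx3c] at hg'
      linear_combination -hg'
    have hzero : ∀ a < D.K, (fun a => d.getD a 0 + 2 * (D.pvf A1 o1).getD a 0 +
        (D.pvf A3 o3).getD a 0 - (mvec D d').getD a 0 - (D.pvf A0 o0).getD a 0
          - 2 * (D.pvf A2 o2).getD a 0) a = 0 := by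
      apply evf_inj
      · intro a ha
        have b1 := hed (d.getD a 0) (by
          rw [List.getD_eq_getElem _ _ (by rw [hdl]; exact ha)]; exact List.getElem_mem _)
        have b2 := hem2 ((mvec D d').getD a 0) (by
          rw [List.getD_eq_getElem _ _ (by rw [hml]; exact ha)]; exact List.getElem_mem _)
        rw [ok.pvg a A0 o0 ha hA0 ho0.le, ok.pvg a A1 o1 ha hA1 ho1.le,
          ok.pvg a A2 o2 ha hA2 ho2.le, ok.pvg a A3 o3 ha hA3 ho3.le]
        have f0 := cnt_bound (D.hf A0) a o0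
        have f1 := cnt_bound (D.hf A1) a o1
        have f2 := cnt_bound (D.hf A2) a o2
        have f3 := cnt_bound (D.hf A3) a o3
        constructor <;> omega
      · rw [ev_eq d D.K hdl, ev_eq _ D.K (ok.pvlen A1 o1 hA1 ho1.le),
          ev_eq _ D.K (ok.pvlen A3 o3 hA3 ho3.le), ev_eq _ D.K hml,
          ev_eq _ D.K (ok.pvlen A0 o0 hA0 ho0.le), ev_eq _ D.K (ok.pvlen A2 o2 hA2 ho2.le)] at hval
        have hsum : ∑ a ∈ range D.K, (d.getD a 0 + 2 * (D.pvf A1 o1).getD a 0 +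
            (D.pvf A3 o3).getD a 0 - (mvec D d').getD a 0 - (D.pvf A0 o0).getD a 0
              - 2 * (D.pvf A2 o2).getD a 0) * 1024 ^ a =
            ∑ i ∈ range D.K, d.getD i 0 * 1024 ^ i +
              2 * ∑ i ∈ range D.K, (D.pvf A1 o1).getD i 0 * 1024 ^ i +
              ∑ i ∈ range D.K, (D.pvf A3 o3).getD i 0 * 1024 ^ i -
              ∑ i ∈ range D.K, (mvec D d').getD i 0 * 1024 ^ i -
              ∑ i ∈ range D.K, (D.pvf A0 o0).getD i 0 * 1024 ^ i -
              2 * ∑ i ∈ range D.K, (D.pvf A2 o2).getD i 0 * 1024 ^ i := by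
          rw [Finset.mul_sum, Finset.mul_sum, ← Finset.sum_add_distrib,
            ← Finset.sum_add_distrib, ← Finset.sum_sub_distrib, ← Finset.sum_sub_distrib,
            ← Finset.sum_sub_distrib]
          apply Finset.sum_congr rfl
          intro a _
          ring
        rw [hsum]
        linear_combination hval
    have hyd : ∀ i < D.K, y i = d'.getD i 0 := by
      have hMM : ∀ a < D.K, ∑ b ∈ range D.K, (D.pvf b D.L).getD a 0 * (y b - d'.getD b 0) = 0 := by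
        intro a ha
        have h1 := hz a ha
        have h2 := hzero a ha
        simp only at h2
        rw [hmg a ha] at h2
        have : ∑ b ∈ range D.K, (D.pvf b D.L).getD a 0 * (y b - d'.getD b 0) =
            ∑ b ∈ range D.K, (D.pvf b D.L).getD a 0 * y b -
              ∑ b ∈ range D.K, (D.pvf b D.L).getD a 0 * d'.getD b 0 := by
          rw [← Finset.sum_sub_distrib]
          apply Finset.sum_congr rfl
          intro b _
          ring
        rw [this, h1]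
        linear_combination h2
      intro i hi
      have h3 : ∑ a ∈ range D.K, (D.adj.getD i []).getD a 0 *
          ∑ b ∈ range D.K, (D.pvf b D.L).getD a 0 * (y b - d'.getD b 0) = 0 := by
        apply Finset.sum_eq_zero
        intro a ha
        rw [hMM a (mem_range.mp ha), mul_zero]
      have h4 : ∑ a ∈ range D.K, (D.adj.getD i []).getD a 0 *
          ∑ b ∈ range D.K, (D.pvf b D.L).getD a 0 * (y b - d'.getD b 0) =
          ∑ b ∈ range D.K, dot (D.adj.getD i []) (D.pvf b D.L) * (y b - d'.getD b 0) := by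
        have : ∀ b ∈ range D.K, dot (D.adj.getD i []) (D.pvf b D.L) * (y b - d'.getD b 0) =
            ∑ a ∈ range D.K, (D.adj.getD i []).getD a 0 *
              ((D.pvf b D.L).getD a 0 * (y b - d'.getD b 0)) := by
          intro b hb
          rw [dot_eq _ _ D.K (hal i hi) (ok.pvlen b D.L (mem_range.mp hb) le_rfl), Finset.sum_mul]
          apply Finset.sum_congr rfl
          intro a _
          ring
        rw [Finset.sum_congr rfl this, Finset.sum_comm]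
        apply Finset.sum_congr rfl
        intro a _
        rw [Finset.mul_sum]
      rw [h4] at h3
      have h5 : ∑ b ∈ range D.K, dot (D.adj.getD i []) (D.pvf b D.L) * (y b - d'.getD b 0) =
          ∑ b ∈ range D.K, (if i = b then D.det * (y b - d'.getD b 0) else 0) := by
        apply Finset.sum_congr rfl
        intro b hb
        rw [hadj i hi b (mem_range.mp hb)]
        split
        · rfl
        · rw [zero_mul]
      rw [h5, Finset.sum_ite_eq (range D.K) i, if_pos (mem_range.mpr hi)] at h3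
      rcases mul_eq_zero.mp h3 with h6 | h6
      · exact absurd h6 hdet
      · linarith
    rw [hpa] at hp
    rcases patAll_spec hp (c0 := c0) (c1 := c1) (c2 := c2) (by rw [hx0A, hx1A, hx0o, hx1o]; exact k0)
      (by rw [hx1A, hx2A, hx1o, hx2o]; exact k1) (by rw [hx2A, hx3A, hx2o, hx3o]; exact k2)
      (by rw [hx0o, hx1o, hx2o, hx3o]; exact hem) with ⟨g0, g1, g2, g3⟩ | ⟨g0, g1⟩
    · left
      refine ⟨g0, g1, g2, ?_⟩
      by_contra hno
      push Not at hno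
      have hall : ∀ i < D.K, d'.getD i 0 = 0 := fun i hi => by rw [← hyd i hi, hno i hi]
      have hev0 : ev d' = 0 := by
        rw [ev_eq d' D.K hdl']
        apply Finset.sum_eq_zero
        intro i hi
        rw [hall i (mem_range.mp hi), zero_mul]
      rw [hev0, zero_add, ok.H] at hec'
      have : e'.c = zc := by exact_mod_cast hec'.symm
      rw [this, Nat.beq_refl] at g3
      exact absurd g3 (by decide)
    · right
      exact ⟨g0, e', he', g1, hyd⟩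
  · -- fallback
    rw [Bool.or_eq_true] at hfb
    rcases hfb with hp | hnd
    · rcases patAll_spec hp (c0 := c0) (c1 := c1) (c2 := c2)
        (by rw [hx0A, hx1A, hx0o, hx1o]; exact k0)
        (by rw [hx1A, hx2A, hx1o, hx2o]; exact k1) (by rw [hx2A, hx3A, hx2o, hx3o]; exact k2)
        (by rw [hx0o, hx1o, hx2o, hx3o]; exact hem) with ⟨g0, g1, g2, g3⟩ | ⟨g0, g1⟩
      · exact absurd g3 (by decide)
      · rw [Nat.zero_testBit] at g1
        exact absurd g1 (by decide)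
    · exfalso
      unfold notdiv at hnd
      rw [List.any_eq_true] at hnd
      obtain ⟨r, hr, hrd⟩ := hnd
      obtain ⟨i, hi, hir⟩ := List.mem_iff_getElem.mp hr
      have hiK : i < D.K := by rw [← hal']; exact hi
      have hir' : D.adj.getD i [] = r := by rw [List.getD_eq_getElem _ _ hi, hir]
      have hrl' : r.length = D.K := by rw [← hir']; exact hal i hiK
      have hzl : (zv D.K d (D.pvf A0 o0) (D.pvf A1 o1) (D.pvf A2 o2) (D.pvf A3 o3)).length = D.K := by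
        unfold zv; simp
      have h1 := hfun r hrl'
      have h2 : dot r (zv D.K d (D.pvf A0 o0) (D.pvf A1 o1) (D.pvf A2 o2) (D.pvf A3 o3)) =
          dot r d - (dot r (D.pvf A0 o0) - 2 * dot r (D.pvf A1 o1) + 2 * dot r (D.pvf A2 o2)
            - dot r (D.pvf A3 o3)) := by
        rw [dot_eq r _ D.K hrl' hzl, dot_eq r d D.K hrl' hdl,
          dot_eq r _ D.K hrl' (ok.pvlen A0 o0 hA0 ho0.le),
          dot_eq r _ D.K hrl' (ok.pvlen A1 o1 hA1 ho1.le),
          dot_eq r _ D.K hrl' (ok.pvlen A2 o2 hA2 ho2.le),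
          dot_eq r _ D.K hrl' (ok.pvlen A3 o3 hA3 ho3.le)]
        have : ∀ a ∈ range D.K, r.getD a 0 *
            (zv D.K d (D.pvf A0 o0) (D.pvf A1 o1) (D.pvf A2 o2) (D.pvf A3 o3)).getD a 0 =
            r.getD a 0 * d.getD a 0 - (r.getD a 0 * (D.pvf A0 o0).getD a 0
            - 2 * (r.getD a 0 * (D.pvf A1 o1).getD a 0) + 2 * (r.getD a 0 * (D.pvf A2 o2).getD a 0)
            - r.getD a 0 * (D.pvf A3 o3).getD a 0) := by
          intro a ha
          unfold zv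
          rw [getD_map_range _ _ _ (mem_range.mp ha)]
          ring
        rw [Finset.sum_congr rfl this, Finset.sum_sub_distrib, Finset.sum_sub_distrib,
          Finset.sum_add_distrib, Finset.sum_sub_distrib, ← Finset.mul_sum, ← Finset.mul_sum]
      have h3 : ∑ b ∈ range D.K, dot r (D.pvf b D.L) * y b = D.det * y i := by
        have : ∑ b ∈ range D.K, dot r (D.pvf b D.L) * y b =
            ∑ b ∈ range D.K, (if i = b then D.det * y b else 0) := by
          apply Finset.sum_congr rfl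
          intro b hb
          rw [← hir', hadj i hiK b (mem_range.mp hb)]
          split
          · rfl
          · rw [zero_mul]
        rw [this, Finset.sum_ite_eq (range D.K) i, if_pos (mem_range.mpr hiK)]
      rw [h2, h1, h3, Int.mul_emod_right] at hrd
      exact absurd hrd (by decide)

lemma mod_rot {K b : ℕ} (hb : b < K) : ((b + 1) % K + (K - 1)) % K = b := by
  rcases Nat.lt_or_ge (b + 1) K with h | h
  · rw [Nat.mod_eq_of_lt h]
    have : b + 1 + (K - 1) = b + K := by omega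
    rw [this, Nat.add_mod_right, Nat.mod_eq_of_lt hb]
  · have e : b + 1 = K := by omega
    rw [e, Nat.mod_self, Nat.zero_add, Nat.mod_eq_of_lt (by omega)]
    omega

lemma mod_rot' {K b : ℕ} (hb : b < K) : ((b + (K - 1)) % K + 1) % K = b := by
  rw [Nat.mod_add_mod]
  have : b + (K - 1) + 1 = b + K := by omega
  rw [this, Nat.add_mod_right, Nat.mod_eq_of_lt hb]

lemma Ok.rotBad {D : Dat} {zc : ℕ} (ok : Ok D zc) (x : ℕ → ℤ) (B0 B1 B2 B3 pt : ℕ) (h0 : B0 < D.K)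
    (h1 : B1 < D.K) (h2 : B2 < D.K) (h3 : B3 < D.K) :
    BadD D x B0 B1 B2 B3 pt ↔ BadD D (fun a => x ((a + (D.K - 1)) % D.K)) ((B0 + 1) % D.K)
      ((B1 + 1) % D.K) ((B2 + 1) % D.K) ((B3 + 1) % D.K) pt := by
  have h := ok.rot B0 h0 B1 h1
  unfold chkRot at h
  rw [allr_iff] at h
  have h := h B2 (List.mem_range.mpr h2)
  rw [allr_iff] at h
  have h := h B3 (List.mem_range.mpr h3)
  rw [Bool.and_eq_true, allr_iff, allr_iff] at h
  obtain ⟨ha, hb⟩ := h
  have hK : 0 < D.K := by omega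
  constructor
  · rintro ⟨e, he, hm, hx⟩
    have hh := ha e he
    rw [List.any_eq_true] at hh
    obtain ⟨e', he', hr⟩ := hh
    unfold isRot at hr
    rw [Bool.and_eq_true] at hr
    have r1 := Nat.eq_of_beq_eq_true hr.1
    have r2 := eq_of_beq hr.2
    refine ⟨e', he', by rw [← r1]; exact hm, fun a ha' => ?_⟩
    rw [r2]
    unfold rotl
    rw [getD_map_range _ _ _ ha']
    exact hx _ (Nat.mod_lt _ hK)
  · rintro ⟨e', he', hm, hx⟩
    have hh := hb e' he'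
    rw [List.any_eq_true] at hh
    obtain ⟨e, he, hr⟩ := hh
    unfold isRot at hr
    rw [Bool.and_eq_true] at hr
    have r1 := Nat.eq_of_beq_eq_true hr.1
    have r2 := eq_of_beq hr.2
    refine ⟨e, he, by rw [r1]; exact hm, fun b hb' => ?_⟩
    have hx' := hx ((b + 1) % D.K) (Nat.mod_lt _ hK)
    rw [r2] at hx'
    unfold rotl at hx'
    rw [getD_map_range _ _ _ (Nat.mod_lt _ hK)] at hx'
    simp only at hx'
    rwa [mod_rot hb'] at hx'

lemma Ok.cntrot {D : Dat} {zc : ℕ} (ok : Ok D zc) (a b : ℕ) (ha : a < D.K) (hb : b < D.K) :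
    ∀ o ≤ D.L, cnt (D.hf ((b + 1) % D.K)) a o = cnt (D.hf b) ((a + (D.K - 1)) % D.K) o := by
  obtain ⟨hlt, -, -, -, -, -, -⟩ := ok.hh
  intro o
  induction o with
  | zero => intro _; rfl
  | succ o ih =>
    intro ho
    rw [cnt, cnt, ih (by omega), ok.heq b hb o (by omega)]
    congr 1
    have hh := hlt b hb o (by omega)
    have hiff : (D.hf b o + 1) % D.K = a ↔ D.hf b o = (a + (D.K - 1)) % D.K := by
      constructor
      · intro h
        rw [← h, mod_rot hh]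
      · intro h
        rw [h, mod_rot' ha]
    simp only [hiff]

lemma Ok.step {D : Dat} {zc : ℕ} (ok : Ok D zc) : ∀ (c : ℕ) (x y : ℕ → ℤ)
    (A0 A1 A2 A3 o0 o1 o2 o3 : ℕ)
    (c0 c1 c2 : Bool), (D.hf A0 o0 + c) % D.K = 0 → A0 < D.K → A1 < D.K → A2 < D.K → A3 < D.K →
    o0 < D.L → o1 < D.L → o2 < D.L → o3 < D.L →
    (c0 = true → A0 = A1 ∧ o0 ≤ o1) → (c1 = true → A1 = A2 ∧ o1 ≤ o2) →
    (c2 = true → A2 = A3 ∧ o2 ≤ o3) →
    (∀ a < D.K, x a = ∑ b ∈ range D.K, cnt (D.hf b) a D.L * y b +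
      (cnt (D.hf A0) a o0 - 2 * cnt (D.hf A1) a o1 + 2 * cnt (D.hf A2) a o2 - cnt (D.hf A3) a o3)) →
    BadD D x (D.hf A0 o0) (D.hf A1 o1) (D.hf A2 o2) (D.hf A3 o3)
      (pc (c0 && o0 == o1) (c1 && o1 == o2) (c2 && o2 == o3)) →
    (c0 = true ∧ c1 = true ∧ c2 = true ∧ ∃ b < D.K, y b ≠ 0) ∨
      (¬ (c0 = true ∧ c1 = true ∧ c2 = true) ∧ BadD D y A0 A1 A2 A3 (pc c0 c1 c2)) := by
  obtain ⟨hlt, -, -, hK1, -, -, -⟩ := ok.hh
  intro c
  induction c with
  | zero =>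
    intro x y A0 A1 A2 A3 o0 o1 o2 o3 c0 c1 c2 hc hA0 hA1 hA2 hA3 ho0 ho1 ho2 ho3 k0 k1 k2 hxy hb
    rw [Nat.add_zero, Nat.mod_eq_of_lt (hlt _ hA0 _ ho0)] at hc
    exact ok.step0 x y A0 A1 A2 A3 o0 o1 o2 o3 c0 c1 c2 hc hA0 hA1 hA2 hA3 ho0 ho1 ho2 ho3 k0 k1 k2
      hxy hb
  | succ c ih =>
    intro x y A0 A1 A2 A3 o0 o1 o2 o3 c0 c1 c2 hc hA0 hA1 hA2 hA3 ho0 ho1 ho2 ho3 k0 k1 k2 hxy hb
    have hK : 0 < D.K := by omega
    have hr := ih (fun a => x ((a + (D.K - 1)) % D.K)) (fun a => y ((a + (D.K - 1)) % D.K))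
      ((A0 + 1) % D.K) ((A1 + 1) % D.K) ((A2 + 1) % D.K) ((A3 + 1) % D.K) o0 o1 o2 o3 c0 c1 c2
      (by
        rw [ok.heq A0 hA0 o0 ho0, Nat.mod_add_mod]
        rw [← hc]
        congr 1
        omega)
      (Nat.mod_lt _ hK) (Nat.mod_lt _ hK) (Nat.mod_lt _ hK) (Nat.mod_lt _ hK) ho0 ho1 ho2 ho3
      (fun h => ⟨by rw [(k0 h).1], (k0 h).2⟩) (fun h => ⟨by rw [(k1 h).1], (k1 h).2⟩)
      (fun h => ⟨by rw [(k2 h).1], (k2 h).2⟩)
      (by
        intro a ha
        rw [hxy _ (Nat.mod_lt _ hK), ok.cntrot a A0 ha hA0 o0 ho0.le, ok.cntrot a A1 ha hA1 o1 ho1.le,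
          ok.cntrot a A2 ha hA2 o2 ho2.le, ok.cntrot a A3 ha hA3 o3 ho3.le]
        congr 1
        symm
        apply Finset.sum_nbij' (fun b => (b + (D.K - 1)) % D.K) (fun b => (b + 1) % D.K)
        · intro b _
          exact mem_range.mpr (Nat.mod_lt _ hK)
        · intro b _
          exact mem_range.mpr (Nat.mod_lt _ hK)
        · intro b hb
          exact mod_rot' (mem_range.mp hb)
        · intro b hb
          exact mod_rot (mem_range.mp hb)
        · intro b hb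
          have h1 := ok.cntrot a ((b + (D.K - 1)) % D.K) ha (Nat.mod_lt _ hK) D.L le_rfl
          rw [mod_rot' (mem_range.mp hb)] at h1
          rw [h1])
      (by
        rw [ok.heq A0 hA0 o0 ho0, ok.heq A1 hA1 o1 ho1, ok.heq A2 hA2 o2 ho2, ok.heq A3 hA3 o3 ho3]
        exact (ok.rotBad x _ _ _ _ _ (hlt _ hA0 _ ho0) (hlt _ hA1 _ ho1) (hlt _ hA2 _ ho2)
          (hlt _ hA3 _ ho3)).mp hb)
    rcases hr with ⟨h0, h1, h2, b, hb, hyb⟩ | ⟨h0, h1⟩
    · exact Or.inl ⟨h0, h1, h2, _, Nat.mod_lt _ hK, hyb⟩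
    · exact Or.inr ⟨h0, (ok.rotBad y _ _ _ _ _ hA0 hA1 hA2 hA3).mpr h1⟩

/-- a successful test gives a word without fair splittings -/
theorem Ok.no_split {D : Dat} {zc : ℕ} (ok : Ok D zc) (p0 p1 p2 p3 : ℕ) (h01 : p0 ≤ p1)
    (h12 : p1 ≤ p2) (h23 : p2 ≤ p3) (h03 : p0 < p3) :
    ∃ a < D.K, dd (fw D.hf D.L) a p0 p1 p2 p3 ≠ 0 := by
  obtain ⟨hlt, h00, hL2, hK1, -, -, -⟩ := ok.hh
  refine Neck.no_split (h := D.hf) (K := D.K) (L := D.L) hL2 hK1 h00 hlt (BadD D) ?_ ?_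
    p0 p1 p2 p3 h01 h12 h23 h03
  · intro x y A0 A1 A2 A3 o0 o1 o2 o3 c0 c1 c2 hA0 hA1 hA2 hA3 ho0 ho1 ho2 ho3 k0 k1 k2 hxy hb
    have hh := hlt A0 hA0 o0 ho0
    refine ok.step (D.K - D.hf A0 o0) x y A0 A1 A2 A3 o0 o1 o2 o3 c0 c1 c2 ?_ hA0 hA1 hA2 hA3 ho0 ho1
      ho2 ho3 k0 k1 k2 hxy hb
    have e : D.hf A0 o0 + (D.K - D.hf A0 o0) = D.K := by omega
    rw [e, Nat.mod_self]
  · intro x B0 B1 B2 B3 c0 c1 c2 hB0 hB1 hB2 hB3 k0 k1 k2 hc hx
    have h := ok.zero B0 hB0 B1 hB1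
    unfold chkZero at h
    rw [allr_iff] at h
    have h := h B2 (List.mem_range.mpr hB2)
    rw [allr_iff] at h
    have h := h B3 (List.mem_range.mpr hB3)
    rw [List.any_eq_true] at h
    obtain ⟨e, he, hez⟩ := h
    rw [Bool.and_eq_true] at hez
    obtain ⟨hec, hep⟩ := hez
    have hec := Nat.eq_of_beq_eq_true hec
    obtain ⟨-, -, hev, hed, -, -⟩ := ok.en B0 B1 B2 B3 hB0 hB1 hB2 hB3 e he
    have hev0 : ∑ a ∈ range D.K, (dec D.K e.c).getD a 0 * 1024 ^ a = 0 := by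
      rw [← ev_eq _ D.K (dec_length _ _)]
      rw [ok.H, hec] at hev
      rw [hec]
      linarith
    have hall := evf_inj D.K (fun a => (dec D.K e.c).getD a 0) (by
      intro a ha
      have b1 := hed ((dec D.K e.c).getD a 0) (by
        rw [List.getD_eq_getElem _ _ (by rw [dec_length]; exact ha)]; exact List.getElem_mem _)
      constructor <;> omega) hev0
    refine ⟨e, he, ?_, fun a ha => by rw [hx a ha]; exact (hall a ha).symm⟩
    have hz : zpat e.m B0 B1 B2 B3 c0 c1 c2 = true := by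
      unfold zpats at hep
      simp only [Bool.and_eq_true] at hep
      obtain ⟨⟨⟨⟨⟨⟨⟨h1, h2⟩, h3⟩, h4⟩, h5⟩, h6⟩, h7⟩, h8⟩ := hep
      cases c0 <;> cases c1 <;> cases c2 <;> assumption
    unfold zpat at hz
    have b0 : (c0 && !(Nat.beq B0 B1)) = false := by
      cases hc' : c0
      · rfl
      · rw [k0 hc', Nat.beq_refl]; rfl
    have b1 : (c1 && !(Nat.beq B1 B2)) = false := by
      cases hc' : c1
      · rfl
      · rw [k1 hc', Nat.beq_refl]; rfl
    have b2 : (c2 && !(Nat.beq B2 B3)) = false := by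
      cases hc' : c2
      · rfl
      · rw [k2 hc', Nat.beq_refl]; rfl
    have b3 : (c0 && c1 && c2) = false := by
      cases hc0 : c0 <;> cases hc1 : c1 <;> cases hc2 : c2 <;> first | rfl | skip
      exact absurd ⟨hc0, hc1, hc2⟩ hc
    rw [b0, b1, b2, b3] at hz
    simpa using hz

end Pool.Agent.TH362.Neck
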